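import Pool.Agent.Odp2.Main.SetupC
import Pool.Agent.Odp2.Alg.Germ
import Pool.Agent.Odp2.Alg.Sep
import Pool.Agent.Odp2.Eq.Defs

/-!
# The standing hypotheses from the hypotheses of the problem
-/

open scoped ContDiff Topology ENNReal NNReal WithZero
open Set MeasureTheory Filter MvPolynomial Pool.Agent.ODP

namespace Pool.Agent.Odp2

theorem exists_std {n : ℕ} (hn : 2 ≤ n) {B K : Type} [CommRing B] [IsDomain B]
    [IsIntegrallyClosed B] [Algebra ℂ B] [Field K] [Algebra B K] [IsFractionRing B K]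
    [Algebra ℂ K] [IsScalarTower ℂ B K] (y : Fin n → B) (hy : IsFiniteFree ℂ y) (x : Pt B)
    (hx : proj y x = 0) (hred : IsReductionAt (RingHom.ker x) y) (r : ℕ) (hr : 0 < r) (h : B)
    (hK : IsRCanonicalAt ℂ (RingHom.ker x) (fun i => algebraMap B K (y i)) r (algebraMap B K h))
    (hklt : IsKltAt y h (1 / (r : ℝ)) x) :
    ∃ (d : ℕ) (G : Germ n d B) (m : ℕ) (sg : B) (κ ρ₁ : ℝ), G.y = y ∧
      Std G x h (1 / (r : ℝ)) κ sg m ρ₁ := by
  obtain ⟨d, -, G₀, rfl⟩ := exists_germ y hy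
  have hh : h ≠ 0 := by
    rintro rfl
    exact hK.1 (map_zero _)
  obtain ⟨G, hG, hnz⟩ := G₀.exists_nz hh
  obtain ⟨κ, hκ, hint⟩ := hklt
  rw [← hG] at hx hred hK hint hnz
  obtain ⟨sg, hsg⟩ := G.exists_sep x hx (G.D.totalDegree + 1)
  obtain ⟨ρ₁, hM, hf⟩ := exists_isMeas G x (Nat.le_add_left 1 _) hsg hr hnz hK hκ hint
  exact ⟨d, G, G.D.totalDegree + 1, sg, κ, ρ₁, hG,
    ⟨hn, Nat.lt_succ_self _, hsg, hM, hκ, hf, hred⟩⟩

end Pool.Agent.Odp2
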