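import Pool.Agent.Odp2.Defs
import Pool.Agent.Odp2.Lim.Ideal
import Pool.Agent.Odp2.Lim.Colength
import Pool.Agent.ODP.Node
import Pool.Agent.ODP.Indep

open scoped ContDiff Topology ENNReal NNReal WithZero
open Set MeasureTheory Filter MvPolynomial Pool.Agent.ODP

namespace Pool.Agent.Odp2

theorem Pt.surj {B : Type} [CommRing B] [Algebra ℂ B] (x : Pt B) : Function.Surjective x :=
  fun c => ⟨algebraMap ℂ B c, x.commutes c⟩

theorem Pt.ker_isMaximal {B : Type} [CommRing B] [Algebra ℂ B] (x : Pt B) :
    (RingHom.ker x).IsMaximal := RingHom.ker_isMaximal_of_surjective _ x.surj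

theorem Pt.colength_ker {B : Type} [CommRing B] [Algebra ℂ B] (x : Pt B) :
    colength ℂ (RingHom.ker x) = 1 := by
  rw [colength, (Ideal.quotientKerAlgEquivOfSurjective x.surj).toLinearEquiv.finrank_eq,
    Module.finrank_self]

/-- A singular point is on at least two sheets. -/
theorem two_le_paramLength {n : ℕ} {B : Type} [CommRing B] [IsDomain B] [IsIntegrallyClosed B]
    [Algebra ℂ B]
    (y : Fin n → B) (hy : IsFiniteFree ℂ y) (x : Pt B) (hx : proj y x = 0)
    (hsing : n < embDim (RingHom.ker x)) : 2 ≤ paramLength ℂ (RingHom.ker x) y := by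
  have hmax := x.ker_isMaximal
  have hyx : ∀ i, y i ∈ RingHom.ker x := fun i => congrFun hx i
  have hJ := paramIdeal_le (RingHom.ker x) y hyx
  have hloc := isLocalRing_quot hJ
  have hfin := finite_paramQuotient y hy (RingHom.ker x)
  have hJm := paramIdeal_ne_maximal y (RingHom.ker x) hsing
  have hR0 : IsLocalRing.maximalIdeal
      (Localization.AtPrime (RingHom.ker x) ⧸ paramIdeal (RingHom.ker x) y) ≠ ⊥ := by
    intro h0
    have h1 := (pow_quot_eq_bot_iff (paramIdeal (RingHom.ker x) y) 1).mp (by rw [pow_one]; exact h0)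
    rw [pow_one] at h1
    exact hJm (le_antisymm hJ h1)
  by_contra hcon
  have h1 : Module.finrank ℂ
      ↥(Submodule.restrictScalars ℂ (IsLocalRing.maximalIdeal
        (Localization.AtPrime (RingHom.ker x) ⧸ paramIdeal (RingHom.ker x) y))) <
      Module.finrank ℂ (Localization.AtPrime (RingHom.ker x) ⧸ paramIdeal (RingHom.ker x) y) := by
    apply Submodule.finrank_lt
    intro htop
    have : (1 : Localization.AtPrime (RingHom.ker x) ⧸ paramIdeal (RingHom.ker x) y) ∈
        Submodule.restrictScalars ℂ (IsLocalRing.maximalIdeal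
          (Localization.AtPrime (RingHom.ker x) ⧸ paramIdeal (RingHom.ker x) y)) := by
      rw [htop]; exact Submodule.mem_top
    exact (Ideal.ne_top_iff_one _).mp (IsLocalRing.maximalIdeal.isMaximal _).ne_top this
  have h2 : Module.finrank ℂ
      ↥(Submodule.restrictScalars ℂ (IsLocalRing.maximalIdeal
        (Localization.AtPrime (RingHom.ker x) ⧸ paramIdeal (RingHom.ker x) y))) = 0 := by
    rw [paramLength] at hcon
    omega
  rw [Submodule.finrank_eq_zero, Submodule.restrictScalars_eq_bot_iff] at h2
  exact hR0 h2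

/-- There is an element of the maximal ideal outside of the ideal of colength two. -/
theorem exists_z {n d : ℕ} {B : Type} [CommRing B] [IsDomain B] [Algebra ℂ B] {G : Germ n d B}
    {x : Pt B} (p : Pts G x) : ∃ z : B, x z = 0 ∧ z ∉ JI p (one n) 1 := by
  by_contra! hcon
  have h1 : JI p (one n) 1 = RingHom.ker x :=
    le_antisymm (JI_le_ker p le_rfl) fun z hz => hcon z hz
  have h2 := colength_JI p (a := one n) (fun _ => le_rfl) 1
  have h3 : {m : Fin n → ℕ | ∑ j, one n j * m j < 1} = {0} := by
    ext m
    simp [one, funext_iff]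
  rw [h1, x.colength_ker, h3, Set.ncard_singleton] at h2
  omega

end Pool.Agent.Odp2
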