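import Pool.Agent.Odp2.Defs

/-!
# The standing hypotheses of Theorem M
-/

open scoped ContDiff Topology ENNReal NNReal WithZero
open Set MeasureTheory Filter MvPolynomial Pool.Agent.ODP

namespace Pool.Agent.Odp2

/-- The standing hypotheses: `du_i / D` is bounded by `|h|^(-s)` and the measure is finite. -/
structure IsMeas {n d : ℕ} {B : Type} [CommRing B] [Algebra ℂ B] (G : Germ n d B) (x : Pt B)
    (h : B) (s : ℝ) (sg : B) (ρ₁ : ℝ) : Prop where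
  pos : 0 < ρ₁
  s_nonneg : 0 ≤ s
  h_ne : ∀ χ : Pt B, eval (proj G.y χ) G.D ≠ 0 → χ h ≠ 0
  du : ∃ C : ℝ≥0, ∀ χ ∈ UU G sg ρ₁, eval (proj G.y χ) G.D ≠ 0 → ∀ i,
    ‖χ (G.du i)‖ₑ ^ 2 ≤ C * ‖eval (proj G.y χ) G.D‖ₑ ^ 2 * ‖χ h‖ₑ ^ (-(2 * s))
  fin : sumI G (UU G sg ρ₁) (fun χ => ‖χ h‖ₑ ^ (-(2 * s))) ≠ ⊤

end Pool.Agent.Odp2
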