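import Pool.Agent.Odp2.Main.MAux3

/-!
# Auxiliary lemmas for Theorem M: the estimate for a fixed index
-/

open scoped ContDiff Topology ENNReal NNReal WithZero
open Set MeasureTheory Filter MvPolynomial Pool.Agent.ODP Pool.Agent.ToricKRF
  Pool.Agent.ToricKRF.G Pool.Agent.KRFS Pool.Agent.KRFQ

namespace Pool.Agent.Odp2

variable {n d : ℕ} {B : Type} [CommRing B] [Algebra ℂ B]

theorem maux_en {b : ℂ} (a : ℂ) (hb : b ≠ 0) (t : ℝ) :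
    ‖a‖ₑ ^ 2 * ‖b‖ₑ ^ t = ENNReal.ofReal (‖a‖ ^ 2 * ‖b‖ ^ t) := by
  rw [ENNReal.ofReal_mul (by positivity), ← ENNReal.ofReal_rpow_of_pos (norm_pos_iff.2 hb),
    ENNReal.ofReal_pow (norm_nonneg _), ofReal_norm, ofReal_norm]

/-- the splitting of the integral -/
theorem maux_int {G : Germ n d B} {sg h z : B} {ρ r δ s A κ η : ℝ} {L : ℕ} {F : Fin L → B}
    (hh : ∀ χ ∈ VV G sg (fun w => eval w G.D) ρ, χ h ≠ 0) (hr : 0 < r) (hκ : 0 < κ)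
    (hwt : ∀ χ ∈ VV G sg (fun w => eval w G.D) ρ,
      κ * ‖χ h‖ ^ (-(2 * s)) ≤ wt G F h η A r δ s χ)
    (hmeas : AEMeasurable (fun w : Fin n → ℂ => ∑' χ : {χ : Pt B //
      χ ∈ VV G sg (fun w => eval w G.D) ρ ∧ proj G.y χ = w},
      ‖(χ : Pt B) z‖ₑ ^ 2 * ‖(χ : Pt B) h‖ₑ ^ (-(2 * s))) volume) (Z : Pt B → ℂ) :
    sumI G (VV G sg (fun w => eval w G.D) ρ)
        (fun χ => ‖Z χ - χ z‖ₑ ^ 2 * ‖χ h‖ₑ ^ (-(2 * s))) ≤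
      2 * ENNReal.ofReal κ⁻¹ * sumI G (VV G sg (fun w => eval w G.D) ρ)
        (fun χ => ENNReal.ofReal (‖(cutf (nq (proj G.y χ) / r ^ 2) : ℂ) * χ z - Z χ‖ ^ 2 *
          wt G F h η A r δ s χ)) +
      2 * sumI G {χ | χ ∈ VV G sg (fun w => eval w G.D) ρ ∧ nq (proj G.y χ) ≤ 4 * r ^ 2}
        (fun χ => ‖χ z‖ₑ ^ 2 * ‖χ h‖ₑ ^ (-(2 * s))) := by
  classical
  set V := VV G sg (fun w => eval w G.D) ρ with hV
  have hball : MeasurableSet {w : Fin n → ℂ | nq w ≤ 4 * r ^ 2} :=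
    (isClosed_le maux_cont_nq continuous_const).measurableSet
  have hc1 : (2 : ℝ≥0∞) * ENNReal.ofReal κ⁻¹ ≠ ⊤ :=
    ENNReal.mul_ne_top (by norm_num) ENNReal.ofReal_ne_top
  -- the pointwise inequality
  have hpt : ∀ χ ∈ V, ‖Z χ - χ z‖ₑ ^ 2 * ‖χ h‖ₑ ^ (-(2 * s)) ≤
      2 * ENNReal.ofReal κ⁻¹ * ENNReal.ofReal
        (‖(cutf (nq (proj G.y χ) / r ^ 2) : ℂ) * χ z - Z χ‖ ^ 2 * wt G F h η A r δ s χ) +
      (if nq (proj G.y χ) ≤ 4 * r ^ 2 then 2 else 0) *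
        (‖χ z‖ₑ ^ 2 * ‖χ h‖ₑ ^ (-(2 * s))) := by
    intro χ hχ
    rw [maux_en _ (hh χ hχ), maux_en _ (hh χ hχ)]
    set H := ‖χ h‖ ^ (-(2 * s)) with hH
    have hH0 : 0 ≤ H := by positivity
    have hW : H ≤ κ⁻¹ * wt G F h η A r δ s χ := by
      rw [← div_eq_inv_mul, le_div_iff₀ hκ, mul_comm]
      exact hwt χ hχ
    have hW0 : 0 ≤ wt G F h η A r δ s χ := (by positivity : 0 ≤ κ * H).trans (hwt χ hχ)
    set cu : ℝ := cutf (nq (proj G.y χ) / r ^ 2) with hcu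
    have e2 : (2 : ℝ≥0∞) * ENNReal.ofReal κ⁻¹ * ENNReal.ofReal
        (‖(cu : ℂ) * χ z - Z χ‖ ^ 2 * wt G F h η A r δ s χ) =
        ENNReal.ofReal (2 * κ⁻¹ * (‖(cu : ℂ) * χ z - Z χ‖ ^ 2 * wt G F h η A r δ s χ)) := by
      rw [ENNReal.ofReal_mul (by positivity), ENNReal.ofReal_mul (by positivity)]
      norm_num
    rw [e2]
    by_cases hc : nq (proj G.y χ) ≤ 4 * r ^ 2
    · rw [if_pos hc]
      have e3 : (2 : ℝ≥0∞) * ENNReal.ofReal (‖χ z‖ ^ 2 * H) =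
          ENNReal.ofReal (2 * (‖χ z‖ ^ 2 * H)) := by
        rw [ENNReal.ofReal_mul (by norm_num)]
        norm_num
      rw [e3, ← ENNReal.ofReal_add (by positivity) (by positivity)]
      apply ENNReal.ofReal_le_ofReal
      have h1 : ‖Z χ - χ z‖ ≤ ‖(cu : ℂ) * χ z - Z χ‖ + ‖χ z‖ := by
        have h2 : Z χ - χ z = -((cu : ℂ) * χ z - Z χ) - ((1 - cu : ℝ) : ℂ) * χ z := by
          push_cast; ring
        have h3 : ‖((1 - cu : ℝ) : ℂ) * χ z‖ ≤ ‖χ z‖ := by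
          rw [norm_mul, Complex.norm_real]
          have h4 : 0 ≤ cu := Real.smoothTransition.nonneg _
          have h5 : cu ≤ 1 := Real.smoothTransition.le_one _
          have h6 : ‖1 - cu‖ ≤ 1 := by
            rw [Real.norm_eq_abs, abs_le]
            constructor <;> linarith
          calc ‖1 - cu‖ * ‖χ z‖ ≤ 1 * ‖χ z‖ := by gcongr
            _ = ‖χ z‖ := one_mul _
        calc ‖Z χ - χ z‖ = ‖-((cu : ℂ) * χ z - Z χ) - ((1 - cu : ℝ) : ℂ) * χ z‖ := by rw [← h2]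
          _ ≤ ‖-((cu : ℂ) * χ z - Z χ)‖ + ‖((1 - cu : ℝ) : ℂ) * χ z‖ := norm_sub_le _ _
          _ ≤ _ := by
              rw [norm_neg]
              gcongr
      set u := ‖(cu : ℂ) * χ z - Z χ‖ with hu
      set v := ‖χ z‖ with hv
      have h7 : ‖Z χ - χ z‖ ^ 2 ≤ 2 * u ^ 2 + 2 * v ^ 2 := by
        have h8 : ‖Z χ - χ z‖ ^ 2 ≤ (u + v) ^ 2 := by gcongr
        nlinarith [sq_nonneg (u - v)]
      calc ‖Z χ - χ z‖ ^ 2 * H ≤ (2 * u ^ 2 + 2 * v ^ 2) * H := by gcongr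
        _ = 2 * u ^ 2 * H + 2 * (v ^ 2 * H) := by ring
        _ ≤ 2 * u ^ 2 * (κ⁻¹ * wt G F h η A r δ s χ) + 2 * (v ^ 2 * H) := by gcongr
        _ = _ := by ring
    · rw [if_neg hc, zero_mul, add_zero]
      apply ENNReal.ofReal_le_ofReal
      have hc1 : cu = 1 := by
        apply Real.smoothTransition.one_of_one_le
        have h4 : 4 < nq (proj G.y χ) / r ^ 2 := by
          rw [lt_div_iff₀ (by positivity)]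
          exact not_le.1 hc
        linarith
      have h1 : ‖Z χ - χ z‖ = ‖(cu : ℂ) * χ z - Z χ‖ := by
        rw [hc1, Complex.ofReal_one, one_mul, norm_sub_rev]
      rw [h1]
      set u := ‖(cu : ℂ) * χ z - Z χ‖ with hu
      calc u ^ 2 * H ≤ u ^ 2 * (κ⁻¹ * wt G F h η A r δ s χ) := by gcongr
        _ = κ⁻¹ * (u ^ 2 * wt G F h η A r δ s χ) := by ring
        _ ≤ _ := by
            have : 0 ≤ κ⁻¹ * (u ^ 2 * wt G F h η A r δ s χ) := by positivity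
            linarith
  -- the sum over a fibre
  have hfib : ∀ w : Fin n → ℂ, (∑' χ : {χ : Pt B // χ ∈ V ∧ proj G.y χ = w},
      ‖Z χ - (χ : Pt B) z‖ₑ ^ 2 * ‖(χ : Pt B) h‖ₑ ^ (-(2 * s))) ≤
      2 * ENNReal.ofReal κ⁻¹ * (∑' χ : {χ : Pt B // χ ∈ V ∧ proj G.y χ = w}, ENNReal.ofReal
        (‖(cutf (nq (proj G.y (χ : Pt B)) / r ^ 2) : ℂ) * (χ : Pt B) z - Z χ‖ ^ 2 *
          wt G F h η A r δ s χ)) +
      2 * {w : Fin n → ℂ | nq w ≤ 4 * r ^ 2}.indicator (fun w =>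
        ∑' χ : {χ : Pt B // χ ∈ V ∧ proj G.y χ = w},
        ‖(χ : Pt B) z‖ₑ ^ 2 * ‖(χ : Pt B) h‖ₑ ^ (-(2 * s))) w := by
    intro w
    have h1 : 2 * {w : Fin n → ℂ | nq w ≤ 4 * r ^ 2}.indicator (fun w =>
        ∑' χ : {χ : Pt B // χ ∈ V ∧ proj G.y χ = w},
        ‖(χ : Pt B) z‖ₑ ^ 2 * ‖(χ : Pt B) h‖ₑ ^ (-(2 * s))) w =
        (if nq w ≤ 4 * r ^ 2 then 2 else 0) * ∑' χ : {χ : Pt B // χ ∈ V ∧ proj G.y χ = w},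
        ‖(χ : Pt B) z‖ₑ ^ 2 * ‖(χ : Pt B) h‖ₑ ^ (-(2 * s)) := by
      by_cases hw : nq w ≤ 4 * r ^ 2
      · rw [indicator_of_mem (s := {w : Fin n → ℂ | nq w ≤ 4 * r ^ 2}) hw, if_pos hw]
      · rw [indicator_of_notMem (s := {w : Fin n → ℂ | nq w ≤ 4 * r ^ 2}) hw, if_neg hw, mul_zero,
          zero_mul]
    rw [h1, ← ENNReal.tsum_mul_left, ← ENNReal.tsum_mul_left, ← ENNReal.tsum_add]
    refine ENNReal.tsum_le_tsum fun χ => ?_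
    have h2 := hpt χ χ.2.1
    have h3 : proj G.y (χ : Pt B) = w := χ.2.2
    rw [h3] at h2 ⊢
    exact h2
  have hae : AEMeasurable (fun w : Fin n → ℂ => 2 * {w : Fin n → ℂ | nq w ≤ 4 * r ^ 2}.indicator
      (fun w => ∑' χ : {χ : Pt B // χ ∈ V ∧ proj G.y χ = w},
        ‖(χ : Pt B) z‖ₑ ^ 2 * ‖(χ : Pt B) h‖ₑ ^ (-(2 * s))) w) volume :=
    (hmeas.indicator hball).const_mul 2
  calc sumI G V (fun χ => ‖Z χ - χ z‖ₑ ^ 2 * ‖χ h‖ₑ ^ (-(2 * s)))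
      ≤ ∫⁻ w : Fin n → ℂ, (2 * ENNReal.ofReal κ⁻¹ * (∑' χ : {χ : Pt B // χ ∈ V ∧
          proj G.y χ = w}, ENNReal.ofReal
          (‖(cutf (nq (proj G.y (χ : Pt B)) / r ^ 2) : ℂ) * (χ : Pt B) z - Z χ‖ ^ 2 *
          wt G F h η A r δ s χ)) +
        2 * {w : Fin n → ℂ | nq w ≤ 4 * r ^ 2}.indicator (fun w =>
        ∑' χ : {χ : Pt B // χ ∈ V ∧ proj G.y χ = w},
        ‖(χ : Pt B) z‖ₑ ^ 2 * ‖(χ : Pt B) h‖ₑ ^ (-(2 * s))) w) := lintegral_mono hfib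
    _ = _ := by
        rw [lintegral_add_right' _ hae, lintegral_const_mul' _ _ hc1,
          lintegral_const_mul' _ _ (by norm_num), maux_restrict]
        rfl

theorem maux_nu [IsDomain B] {G : Germ n d B} {sg h z : B} {ρ ρ' r δ s A c' ε κ : ℝ} {N L : ℕ}
    {a : Fin n → ℕ} (hn : 1 ≤ n) (ha : ∀ j, 1 ≤ a j) (hN : 1 ≤ N) (hA0 : 0 ≤ A)
    (hA : ((∑ j, a j : ℕ) : ℝ) ≤ A * N) (hδ : 0 < δ) (hs0 : 0 ≤ s) (hr : 0 < r) (hκ : 0 < κ)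
    (hrρ : r ≤ ρ') (hρ' : ρ' < ρ)
    (hh : ∀ χ ∈ VV G sg (fun w => eval w G.D) ρ, χ h ≠ 0)
    {q : Fin n → ℂ} {P : Fin 2 → Pt B} (hPq : ∀ i, proj G.y (P i) = q)
    (hP : ∀ i, P i ∈ VV G sg (fun w => eval w G.D) ρ) (hq : nq q < r ^ 2) {F : Fin L → B}
    (hF : ∀ l i, VanAt G a N (P i) (F l)) {M : ℝ≥0∞} (hM : M ≠ ⊤)
    (hcut : ∀ η : ℝ, 0 < η → η ≤ 1 → ∃ Z : Pt B → ℂ,
      HolV G (VV G sg (fun w => eval w G.D) ρ) Z ∧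
      sumI G (VV G sg (fun w => eval w G.D) ρ)
        (fun χ => ENNReal.ofReal (‖Z χ‖ ^ 2 * wt G F h η A r δ s χ)) ≠ ⊤ ∧
      sumI G (VV G sg (fun w => eval w G.D) ρ) (fun χ => ENNReal.ofReal
        (‖(cutf (nq (proj G.y χ) / r ^ 2) : ℂ) * χ z - Z χ‖ ^ 2 *
          wt G F h η A r δ s χ)) ≤ M)
    (hwt : ∀ η : ℝ, 0 < η → η ≤ 1 → ∀ χ ∈ VV G sg (fun w => eval w G.D) ρ,
      κ * ‖χ h‖ ^ (-(2 * s)) ≤ wt G F h η A r δ s χ)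
    (hmeas : AEMeasurable (fun w : Fin n → ℂ => ∑' χ : {χ : Pt B //
      χ ∈ VV G sg (fun w => eval w G.D) ρ ∧ proj G.y χ = w},
      ‖(χ : Pt B) z‖ₑ ^ 2 * ‖(χ : Pt B) h‖ₑ ^ (-(2 * s))) volume)
    {C' : ℝ≥0} (hcoef : ∀ Z : Pt B → ℂ, HolV G (VV G sg (fun w => eval w G.D) ρ) Z →
      sumI G (VV G sg (fun w => eval w G.D) ρ)
        (fun χ => ‖Z χ‖ₑ ^ 2 * ‖χ h‖ₑ ^ (-(2 * s))) ≠ ⊤ →
      ∃ ζ : Fin d → (Fin n → ℂ) → ℂ, (∀ i, DifferentiableOn ℂ (ζ i) (bal n ρ)) ∧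
        (∀ i, ∀ w ∈ bal n ρ, eval w G.D ≠ 0 → ζ i w =
          ∑ᶠ χ ∈ {χ : Pt B | χ ∈ VV G sg (fun w => eval w G.D) ρ ∧ proj G.y χ = w},
            χ (G.du i) * Z χ / eval w G.D) ∧
        (∀ χ ∈ VV G sg (fun w => eval w G.D) ρ, Z χ = ∑ i, ζ i (proj G.y χ) * χ (G.e i)) ∧
        ∀ i w, nq w ≤ ρ' ^ 2 →
          ‖ζ i w‖ₑ ^ 2 ≤ C' * sumI G (VV G sg (fun w => eval w G.D) ρ)
            (fun χ => ‖Z χ‖ₑ ^ 2 * ‖χ h‖ₑ ^ (-(2 * s))))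
    {ζz : Fin d → ℂ} (hζz : ∀ i, ζz i =
      ∑ᶠ χ ∈ {χ : Pt B | χ ∈ VV G sg (fun w => eval w G.D) ρ ∧ proj G.y χ = q},
        χ (G.du i) * χ z / eval q G.D)
    (hI2 : sumI G {χ | χ ∈ VV G sg (fun w => eval w G.D) ρ ∧ nq (proj G.y χ) ≤ 4 * r ^ 2}
      (fun χ => ‖χ z‖ₑ ^ 2 * ‖χ h‖ₑ ^ (-(2 * s))) ≠ ⊤)
    (hc' : 0 < c') (hε0 : 0 ≤ ε)
    (hε : C' * (2 * ENNReal.ofReal κ⁻¹ * M + 2 * sumI G {χ | χ ∈ VV G sg
      (fun w => eval w G.D) ρ ∧ nq (proj G.y χ) ≤ 4 * r ^ 2}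
      (fun χ => ‖χ z‖ₑ ^ 2 * ‖χ h‖ₑ ^ (-(2 * s)))) ≤ ENNReal.ofReal (ε ^ 2)) :
    ∃ u : Fin d → ℂ, (∀ i, ‖∑ k, u k * P i (G.e k)‖ ≤ c') ∧ ∀ k, ‖u k - ζz k‖ ≤ ε := by
  set V := VV G sg (fun w => eval w G.D) ρ with hV
  have hρ0 : 0 < ρ' := hr.trans_le hrρ
  have hpt : ∀ i, ∃ η₀ : ℝ, 0 < η₀ ∧ ∀ η, 0 < η → η ≤ η₀ → ∀ Z : Pt B → ℂ, HolV G V Z →
      sumI G V (fun χ => ENNReal.ofReal
          (‖(cutf (nq (proj G.y χ) / r ^ 2) : ℂ) * χ z - Z χ‖ ^ 2 *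
            wt G F h η A r δ s χ)) ≤ M → ‖Z (P i)‖ ≤ c' := fun i =>
    maux_point1 hn ha hN hA0 hA hδ.le hs0 hr hc' hh (hP i) (by rw [hPq]; exact hq)
      (fun l => hF l i) hM
  choose η₀ hη₀ hpt' using hpt
  obtain ⟨η₁, hη₁, hη₁'⟩ := maux_min η₀ hη₀
  set η := min 1 η₁ with hη
  have hη0 : 0 < η := lt_min one_pos hη₁
  have hη1 : η ≤ 1 := min_le_left _ _
  obtain ⟨Z, hZ, hZfin, hZcut⟩ := hcut η hη0 hη1
  have hZP : ∀ i, ‖Z (P i)‖ ≤ c' := fun i =>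
    hpt' i η hη0 ((min_le_right _ _).trans (hη₁' i)) Z hZ hZcut
  have hqb : q ∈ bal n ρ := by
    change nq q < ρ ^ 2
    refine hq.trans_le ?_
    have : r ≤ ρ := hrρ.trans hρ'.le
    gcongr
  have hqb' : nq q ≤ ρ' ^ 2 := hq.le.trans (by gcongr)
  have hqD : eval q G.D ≠ 0 := by
    have h1 := (hP 0).2.1
    rwa [hPq 0] at h1
  -- `Z` is square integrable
  have hZ2 : sumI G V (fun χ => ‖Z χ‖ₑ ^ 2 * ‖χ h‖ₑ ^ (-(2 * s))) ≠ ⊤ := by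
    refine ne_top_of_le_ne_top (ENNReal.mul_ne_top (a := ENNReal.ofReal κ⁻¹)
      ENNReal.ofReal_ne_top hZfin) (cut_sumI_le ENNReal.ofReal_ne_top fun χ hχ => Or.inl ⟨hχ, ?_⟩)
    rw [maux_en _ (hh χ hχ), ← ENNReal.ofReal_mul (by positivity)]
    apply ENNReal.ofReal_le_ofReal
    have hW : ‖χ h‖ ^ (-(2 * s)) ≤ κ⁻¹ * wt G F h η A r δ s χ := by
      rw [← div_eq_inv_mul, le_div_iff₀ hκ, mul_comm]
      exact hwt η hη0 hη1 χ hχ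
    calc ‖Z χ‖ ^ 2 * ‖χ h‖ ^ (-(2 * s)) ≤ ‖Z χ‖ ^ 2 * (κ⁻¹ * wt G F h η A r δ s χ) := by gcongr
      _ = _ := by ring
  obtain ⟨ζ, -, hζ2, hζ3, -⟩ := hcoef Z hZ hZ2
  -- the difference
  have hint := maux_int (κ := κ) (r := r) (δ := δ) (s := s) (A := A) (η := η) (F := F) (z := z)
    hh hr hκ (hwt η hη0 hη1) hmeas Z
  have hle : sumI G V (fun χ => ‖Z χ - χ z‖ₑ ^ 2 * ‖χ h‖ₑ ^ (-(2 * s))) ≤
      2 * ENNReal.ofReal κ⁻¹ * M + 2 * sumI G {χ | χ ∈ V ∧ nq (proj G.y χ) ≤ 4 * r ^ 2}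
      (fun χ => ‖χ z‖ₑ ^ 2 * ‖χ h‖ₑ ^ (-(2 * s))) :=
    hint.trans (by gcongr)
  have hfin : sumI G V (fun χ => ‖Z χ - χ z‖ₑ ^ 2 * ‖χ h‖ₑ ^ (-(2 * s))) ≠ ⊤ := by
    refine ne_top_of_le_ne_top ?_ hle
    exact ENNReal.add_ne_top.2 ⟨ENNReal.mul_ne_top (ENNReal.mul_ne_top (by norm_num)
      ENNReal.ofReal_ne_top) hM, ENNReal.mul_ne_top (by norm_num) hI2⟩
  have hdiff : HolV G V (fun χ => Z χ - χ z) := fun Ω S hS => (hZ Ω S hS).sub (hS.holo z)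
  obtain ⟨ζ', -, hζ'2, -, hζ'4⟩ := hcoef (fun χ => Z χ - χ z) hdiff hfin
  have hfinite : {χ : Pt B | χ ∈ V ∧ proj G.y χ = q}.Finite :=
    (dual_finite G hqD).subset fun χ hχ => hχ.2
  have hform : ∀ k, ζ' k q = ζ k q - ζz k := by
    intro k
    rw [hζ'2 k q hqb hqD, hζ2 k q hqb hqD, hζz k, ← finsum_mem_sub_distrib _ _ hfinite]
    refine finsum_mem_congr rfl fun χ _ => ?_
    ring
  refine ⟨fun k => ζ k q, fun i => ?_, fun k => ?_⟩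
  · have h1 := hζ3 (P i) (hP i)
    rw [hPq i] at h1
    rw [← h1]
    exact hZP i
  · rw [← hform k]
    have h1 : ‖ζ' k q‖ₑ ^ 2 ≤ ENNReal.ofReal (ε ^ 2) :=
      ((hζ'4 k q hqb').trans (by gcongr)).trans hε
    rw [← ofReal_norm, ← ENNReal.ofReal_pow (norm_nonneg _),
      ENNReal.ofReal_le_ofReal_iff (by positivity)] at h1
    exact le_of_sq_le_sq h1 hε0

end Pool.Agent.Odp2
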