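import Pool.Agent.Odp2.Pt.Bdd
import Pool.Agent.Odp2.Pt.Sect

/-!
# Theorem M: measurability, smallness and comparison of the fibre integrals
-/

open scoped ContDiff Topology ENNReal NNReal WithZero
open Set MeasureTheory Filter MvPolynomial Pool.Agent.ODP

namespace Pool.Agent.Odp2

section

variable {n d : ℕ} {B : Type} [CommRing B] [Algebra ℂ B]

/-! ### (A) measurability -/

/-- the sum over a fibre is a finite sum over the sections -/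
theorem mauxA_tsum {G : Germ n d B} {Ω : Set (Fin n → ℂ)} {s : Fin d → (Fin n → ℂ) → Pt B}
    (hs : ∀ i, IsSec G univ Ω (s i)) (hinj : ∀ w ∈ Ω, Function.Injective fun i => s i w)
    (hsurj : ∀ w ∈ Ω, ∀ χ : Pt B, proj G.y χ = w → ∃ i, s i w = χ) (S : Set (Pt B))
    (F : Pt B → ℝ≥0∞) {w : Fin n → ℂ} (hw : w ∈ Ω) :
    ∑' χ : {χ : Pt B // χ ∈ S ∧ proj G.y χ = w}, F χ = ∑ i, S.indicator F (s i w) := by
  classical
  have h1 : ∑' χ : {χ : Pt B // χ ∈ S ∧ proj G.y χ = w}, F χ =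
      ∑' χ : Pt B, {χ : Pt B | χ ∈ S ∧ proj G.y χ = w}.indicator F χ :=
    tsum_subtype {χ : Pt B | χ ∈ S ∧ proj G.y χ = w} F
  rw [h1, ← (hinj w hw).tsum_eq]
  · rw [tsum_fintype]
    refine Finset.sum_congr rfl fun i _ => ?_
    by_cases hi : s i w ∈ S
    · rw [indicator_of_mem hi, indicator_of_mem]
      exact ⟨hi, (hs i).proj w hw⟩
    · rw [indicator_of_notMem hi, indicator_of_notMem]
      exact fun h => hi h.1
  · intro χ hχ
    rw [Function.mem_support] at hχ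
    have h2 : χ ∈ {χ : Pt B | χ ∈ S ∧ proj G.y χ = w} := by
      by_contra h
      exact hχ (indicator_of_notMem h F)
    obtain ⟨i, hi⟩ := hsurj w hw χ h2.2
    exact ⟨i, hi⟩

/-- the sum over the fibres is measurable -/
theorem mauxA_aemeas' (G : Germ n d B) (S : Set (Pt B)) (F : Pt B → ℝ≥0∞)
    (hS : ∀ χ ∈ S, eval (proj G.y χ) G.D ≠ 0)
    (hSm : ∀ Ω s, IsSec G univ Ω s → MeasurableSet {w | w ∈ Ω ∧ s w ∈ S})
    (hF : ∀ Ω s, IsSec G univ Ω s → AEMeasurable (fun w => F (s w)) (volume.restrict Ω)) :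
    AEMeasurable (fun w : Fin n → ℂ => ∑' χ : {χ : Pt B // χ ∈ S ∧ proj G.y χ = w}, F χ)
      volume := by
  classical
  set f : (Fin n → ℂ) → ℝ≥0∞ := fun w => ∑' χ : {χ : Pt B // χ ∈ S ∧ proj G.y χ = w}, F χ with hf
  -- the open set where `D` does not vanish
  set U : Set (Fin n → ℂ) := {w | eval w G.D ≠ 0} with hU
  have hUo : IsOpen U := isOpen_ne_fun (MvPolynomial.continuous_eval G.D) continuous_const
  have hloc : ∀ w : U, ∃ Ω : Set (Fin n → ℂ), IsOpen Ω ∧ (w : Fin n → ℂ) ∈ Ω ∧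
      AEMeasurable f (volume.restrict Ω) := by
    rintro ⟨w₀, hw₀⟩
    obtain ⟨Ω, hΩ, hmem, s, hs, hinj, hsurj⟩ := G.exists_sections hw₀
    refine ⟨Ω, hΩ, hmem, ?_⟩
    have h1 : AEMeasurable (fun w => ∑ i, {w | w ∈ Ω ∧ s i w ∈ S}.indicator
        (fun w => F (s i w)) w) (volume.restrict Ω) := by
      refine Finset.aemeasurable_fun_sum _ fun i _ => ?_
      exact (hF Ω (s i) (hs i)).indicator (hSm Ω (s i) (hs i))
    refine h1.congr (ae_restrict_of_forall_mem hΩ.measurableSet fun w hw => ?_)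
    rw [hf]
    simp only
    rw [mauxA_tsum hs hinj hsurj S F hw]
    refine Finset.sum_congr rfl fun i _ => ?_
    by_cases hi : s i w ∈ S
    · rw [indicator_of_mem hi, indicator_of_mem]
      exact ⟨hw, hi⟩
    · rw [indicator_of_notMem hi, indicator_of_notMem]
      exact fun h => hi h.2
  choose Ω hΩo hΩm hΩ using hloc
  obtain ⟨T, hT, hTU⟩ := TopologicalSpace.isOpen_iUnion_countable Ω hΩo
  have hsub : U ⊆ ⋃ i ∈ T, Ω i := by
    rw [hTU]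
    intro w hw
    exact mem_iUnion.2 ⟨⟨w, hw⟩, hΩm ⟨w, hw⟩⟩
  have h2 : AEMeasurable f (volume.restrict (⋃ i ∈ T, Ω i)) := by
    have : Countable T := hT
    rw [biUnion_eq_iUnion]
    exact aemeasurable_iUnion_iff.2 fun i => hΩ i
  have h3 : AEMeasurable f (volume.restrict U) := h2.mono_set hsub
  have h4 : AEMeasurable f (volume.restrict Uᶜ) := by
    refine (aemeasurable_const (b := (0 : ℝ≥0∞))).congr
      (ae_restrict_of_forall_mem hUo.measurableSet.compl fun w hw => ?_)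
    rw [hf]
    simp only
    symm
    rw [ENNReal.tsum_eq_zero]
    rintro ⟨χ, h5, h6⟩
    exact absurd (h6 ▸ hS χ h5 : eval w G.D ≠ 0) (by simpa [hU] using hw)
  have h5 : AEMeasurable f (volume.restrict (U ∪ Uᶜ)) := aemeasurable_union_iff.2 ⟨h3, h4⟩
  rwa [union_compl_self, Measure.restrict_univ] at h5

theorem mauxA_continuous_nq {n : ℕ} : Continuous (nq : (Fin n → ℂ) → ℝ) := by
  unfold nq
  fun_prop

theorem mauxA_aemeas (G : Germ n d B) (sg z h : B) (s ρ : ℝ) :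
    AEMeasurable (fun w : Fin n → ℂ =>
      ∑' χ : {χ : Pt B // χ ∈ VV G sg (fun w => eval w G.D) ρ ∧ proj G.y χ = w},
        ‖(χ : Pt B) z‖ₑ ^ 2 * ‖(χ : Pt B) h‖ₑ ^ (-(2 * s))) volume := by
  refine mauxA_aemeas' G (VV G sg (fun w => eval w G.D) ρ)
    (fun χ => ‖χ z‖ₑ ^ 2 * ‖χ h‖ₑ ^ (-(2 * s))) (fun χ hχ => hχ.2.1) ?_ ?_
  · intro Ω t ht
    have h1 : {w | w ∈ Ω ∧ t w ∈ VV G sg (fun w => eval w G.D) ρ} =
        Ω ∩ (fun w => ‖t w sg - 1‖) ⁻¹' Iio (1 / 2) ∩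
          ({w | nq w < ρ ^ 2} ∩ {w | eval w G.D ≠ 0}) := by
      ext w
      constructor
      · rintro ⟨hw, h2, h3, h4⟩
        rw [ht.proj w hw] at h2 h3
        exact ⟨⟨hw, h4⟩, h2, h3⟩
      · rintro ⟨⟨hw, h4⟩, h2, h3⟩
        refine ⟨hw, ?_, ?_, h4⟩
        · rw [ht.proj w hw]; exact h2
        · rw [ht.proj w hw]; exact h3
    rw [h1]
    have h2 : IsOpen (Ω ∩ (fun w => ‖t w sg - 1‖) ⁻¹' Iio (1 / 2)) :=
      (((ht.holo sg).continuousOn.sub continuousOn_const).norm).isOpen_inter_preimage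
        ht.isOpen isOpen_Iio
    exact h2.measurableSet.inter
      (((isOpen_lt mauxA_continuous_nq continuous_const).measurableSet).inter
        (isOpen_ne_fun (MvPolynomial.continuous_eval G.D) continuous_const).measurableSet)
  · intro Ω t ht
    have h1 : ∀ b : B, AEMeasurable (fun w => ‖t w b‖ₑ) (volume.restrict Ω) := fun b =>
      ((ht.holo b).continuousOn.aemeasurable ht.isOpen.measurableSet).enorm
    exact ((h1 z).pow_const 2).mul ((h1 h).pow_const _)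

/-! ### (B) smallness -/

theorem mauxA_small (hn : 1 ≤ n) (G : Germ n d B) (S : Set (Pt B)) (F : Pt B → ℝ≥0∞)
    (hF : sumI G S F ≠ ⊤) {ε : ℝ≥0∞} (hε : 0 < ε) :
    ∃ r₀ : ℝ, 0 < r₀ ∧ ∀ r, 0 < r → r ≤ r₀ →
      sumI G {χ | χ ∈ S ∧ nq (proj G.y χ) ≤ 4 * r ^ 2} F ≤ ε := by
  obtain ⟨δ, hδ, hδ'⟩ := exists_pos_setLIntegral_lt_of_measure_lt hF hε.ne'
  -- the volume of the small balls
  have hvol : Tendsto (fun r : ℝ => volume (Metric.closedBall (0 : Fin n → ℂ) (2 * r)))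
      (𝓝[>] 0) (𝓝 0) := by
    have h1 : ∀ r ∈ Ioi (0 : ℝ), volume (Metric.closedBall (0 : Fin n → ℂ) (2 * r)) =
        ENNReal.ofReal ((2 * r) ^ Module.finrank ℝ (Fin n → ℂ)) *
          volume (Metric.ball (0 : Fin n → ℂ) 1) := fun r hr =>
      Measure.addHaar_closedBall volume _ (by have := mem_Ioi.1 hr; positivity)
    refine Tendsto.congr' ?_ (?_ : Tendsto (fun r : ℝ =>
      ENNReal.ofReal ((2 * r) ^ Module.finrank ℝ (Fin n → ℂ)) *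
          volume (Metric.ball (0 : Fin n → ℂ) 1)) (𝓝[>] 0) (𝓝 0))
    · filter_upwards [self_mem_nhdsWithin] with r hr
      exact (h1 r hr).symm
    · have hfr : Module.finrank ℝ (Fin n → ℂ) ≠ 0 := by
        have : Nonempty (Fin n) := ⟨⟨0, hn⟩⟩
        have : Nontrivial (Fin n → ℂ) := inferInstance
        exact (Module.finrank_pos).ne'
      have h2 : Tendsto (fun r : ℝ => ENNReal.ofReal ((2 * r) ^ Module.finrank ℝ (Fin n → ℂ)))
          (𝓝[>] 0) (𝓝 0) := by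
        have h3 : Continuous fun r : ℝ =>
            ENNReal.ofReal ((2 * r) ^ Module.finrank ℝ (Fin n → ℂ)) :=
          ENNReal.continuous_ofReal.comp (by fun_prop)
        have h4 := (h3.tendsto 0).mono_left (nhdsWithin_le_nhds (s := Ioi (0 : ℝ)))
        simpa [hfr] using h4
      have h5 := ENNReal.Tendsto.mul_const h2
        (Or.inr (measure_ball_lt_top (μ := volume) (x := (0 : Fin n → ℂ)) (r := 1)).ne)
      simpa using h5
  obtain ⟨r₀, hr₀, hr₀'⟩ := ((hvol.eventually_lt_const hδ).and self_mem_nhdsWithin).exists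
  replace hr₀' : 0 < r₀ := hr₀'
  refine ⟨r₀, hr₀', fun r hr hle => ?_⟩
  set W : Set (Fin n → ℂ) := {w | nq w ≤ 4 * r ^ 2} with hW
  have hWm : MeasurableSet W := (isClosed_le mauxA_continuous_nq continuous_const).measurableSet
  have hWs : W ⊆ Metric.closedBall (0 : Fin n → ℂ) (2 * r₀) := by
    intro w hw
    rw [mem_closedBall_zero_iff, pi_norm_le_iff_of_nonneg (by positivity)]
    intro j
    refine (norm_le_sqrt_nq w j).trans ?_
    rw [Real.sqrt_le_left (by positivity)]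
    have hw' : nq w ≤ 4 * r ^ 2 := hw
    refine hw'.trans ?_
    nlinarith
  have h1 : sumI G {χ | χ ∈ S ∧ nq (proj G.y χ) ≤ 4 * r ^ 2} F ≤
      ∫⁻ w in W, ∑' χ : {χ : Pt B // χ ∈ S ∧ proj G.y χ = w}, F χ := by
    rw [← lintegral_indicator hWm]
    refine lintegral_mono fun w => ?_
    by_cases hw : w ∈ W
    · rw [indicator_of_mem hw]
      exact ENNReal.tsum_mono_subtype F
        (s := {χ : Pt B | χ ∈ {χ | χ ∈ S ∧ nq (proj G.y χ) ≤ 4 * r ^ 2} ∧ proj G.y χ = w})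
        (t := {χ : Pt B | χ ∈ S ∧ proj G.y χ = w}) fun χ hχ => ⟨hχ.1.1, hχ.2⟩
    · rw [indicator_of_notMem hw]
      refine le_of_eq ?_
      rw [ENNReal.tsum_eq_zero]
      rintro ⟨χ, h2, h3⟩
      exact absurd (h3 ▸ h2.2 : nq w ≤ 4 * r ^ 2) hw
  exact h1.trans (hδ' W ((measure_mono hWs).trans_lt hr₀)).le

/-! ### (C) comparison -/

theorem mauxA_rpow {u v C : ℝ≥0∞} (hC0 : C ≠ 0) (hC : C ≠ ⊤) (h : u ≤ C * v) {c : ℝ}
    (hc : 0 ≤ c) : v ^ (-c) ≤ C ^ c * u ^ (-c) := by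
  have h1 : u ^ c ≤ C ^ c * v ^ c := by
    rw [← ENNReal.mul_rpow_of_nonneg _ _ hc]
    exact ENNReal.rpow_le_rpow h hc
  have hCc0 : C ^ c ≠ 0 := by
    rw [Ne, ENNReal.rpow_eq_zero_iff]
    rintro (h | h)
    · exact hC0 h.1
    · exact hC h.1
  have hCc : C ^ c ≠ ⊤ := ENNReal.rpow_ne_top_of_nonneg hc hC
  have h2 := ENNReal.inv_le_inv.2 h1
  rw [ENNReal.mul_inv (Or.inl hCc0) (Or.inl hCc)] at h2
  rw [ENNReal.rpow_neg, ENNReal.rpow_neg]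
  calc (v ^ c)⁻¹ = C ^ c * ((C ^ c)⁻¹ * (v ^ c)⁻¹) := by
        rw [← mul_assoc, ENNReal.mul_inv_cancel hCc0 hCc, one_mul]
    _ ≤ _ := by gcongr

theorem mauxA_bound (G : Germ n d B) {L : ℕ} (f : Fin L → B) {g : B}
    (hg : g ∈ Ideal.span (range f)) (R : ℝ) :
    ∃ C : ℝ≥0, ∀ χ : Pt B, nq (proj G.y χ) ≤ R → ‖χ g‖ₑ ^ 2 ≤ C * ∑ l, ‖χ (f l)‖ₑ ^ 2 := by
  obtain ⟨a, ha⟩ := (Ideal.mem_span_range_iff_exists_fun).1 hg
  choose C hC using fun l => G.bdd (a l) R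
  refine ⟨((∑ l, |C l| ^ 2).toNNReal), fun χ hχ => ?_⟩
  have h1 : ‖χ g‖ ^ 2 ≤ (∑ l, |C l| ^ 2) * ∑ l, ‖χ (f l)‖ ^ 2 := by
    have h2 : ‖χ g‖ ≤ ∑ l, |C l| * ‖χ (f l)‖ := by
      rw [← ha, map_sum]
      refine (norm_sum_le _ _).trans (Finset.sum_le_sum fun l _ => ?_)
      rw [map_mul, norm_mul]
      gcongr
      exact (hC l χ hχ).trans (le_abs_self _)
    calc ‖χ g‖ ^ 2 ≤ (∑ l, |C l| * ‖χ (f l)‖) ^ 2 := by gcongr
      _ ≤ _ := Finset.sum_mul_sq_le_sq_mul_sq _ _ _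
  have h3 : ∀ b : B, ‖χ b‖ₑ ^ 2 = ENNReal.ofReal (‖χ b‖ ^ 2) := fun b => by
    rw [ENNReal.ofReal_pow (norm_nonneg _), ofReal_norm]
  rw [h3]
  simp only [h3]
  rw [← ENNReal.ofReal_sum_of_nonneg fun _ _ => by positivity]
  change _ ≤ ENNReal.ofReal (∑ l, |C l| ^ 2) * _
  rw [← ENNReal.ofReal_mul (by positivity)]
  exact ENNReal.ofReal_le_ofReal h1

theorem mauxA_near {G : Germ n d B} {x : Pt B} {sg : B} {m : ℕ} (hm : 1 ≤ m)
    (hsg : IsSep G x m sg) {h : B} {s c : ℝ} (hs : 0 ≤ s) (hc : 0 ≤ c) (Gen : Finset B) {L : ℕ}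
    (f : Fin L → B) (he : Ideal.span (Gen : Set B) = Ideal.span (range f))
    (hI : NearInt G.y h s x fun χ => sq Gen χ ^ (-c)) :
    ∃ ρ : ℝ, 0 < ρ ∧ sumI G (UU G sg ρ) (fun χ =>
      (∑ l, ‖χ (f l)‖ₑ ^ 2) ^ (-c) * ‖χ h‖ₑ ^ (-(2 * s))) ≠ ⊤ := by
  have _ := hs
  classical
  obtain ⟨ρ₁, hρ₁, h1⟩ := (hsg.near hm h s _).1 hI
  have h2 : ∀ g : Gen, ∃ C : ℝ≥0, ∀ χ : Pt B, nq (proj G.y χ) ≤ 1 →
      ‖χ (g : B)‖ₑ ^ 2 ≤ C * ∑ l, ‖χ (f l)‖ₑ ^ 2 := fun g => by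
    refine mauxA_bound G f ?_ 1
    rw [← he]
    exact Ideal.subset_span g.2
  choose C hC using h2
  set K : ℝ≥0 := ∑ g, C g + 1 with hK
  have h3 : ∀ χ : Pt B, nq (proj G.y χ) ≤ 1 → sq Gen χ ≤ K * ∑ l, ‖χ (f l)‖ₑ ^ 2 := by
    intro χ hχ
    rw [sq, ← Finset.sum_attach]
    calc ∑ g ∈ Gen.attach, ‖χ (g : B)‖ₑ ^ 2 ≤
          ∑ g ∈ Gen.attach, (C g : ℝ≥0∞) * ∑ l, ‖χ (f l)‖ₑ ^ 2 :=
          Finset.sum_le_sum fun g _ => hC g χ hχ
      _ = (∑ g ∈ Gen.attach, (C g : ℝ≥0∞)) * ∑ l, ‖χ (f l)‖ₑ ^ 2 := by rw [Finset.sum_mul]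
      _ ≤ _ := by
          gcongr
          rw [hK]
          push_cast
          exact le_add_right (le_of_eq rfl)
  refine ⟨min ρ₁ 1, lt_min hρ₁ one_pos, ?_⟩
  have hKc : (K : ℝ≥0∞) ^ c ≠ ⊤ := ENNReal.rpow_ne_top_of_nonneg hc ENNReal.coe_ne_top
  have hK0 : (K : ℝ≥0∞) ≠ 0 := by
    rw [hK]
    simp
  refine ne_top_of_le_ne_top (ENNReal.mul_ne_top hKc h1) ?_
  rw [sumI, sumI, ← lintegral_const_mul' _ _ hKc]
  refine lintegral_mono fun w => ?_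
  simp only
  rw [← ENNReal.tsum_mul_left]
  refine (ENNReal.tsum_le_tsum (g := fun χ : {χ : Pt B // χ ∈ UU G sg (min ρ₁ 1) ∧
    proj G.y χ = w} => (K : ℝ≥0∞) ^ c * (sq Gen χ ^ (-c) * ‖(χ : Pt B) h‖ₑ ^ (-(2 * s))))
    ?_).trans ?_
  · rintro ⟨χ, h4, h5⟩
    simp only
    have h6 : nq (proj G.y χ) ≤ 1 := by
      refine h4.1.le.trans ?_
      have h7 : min ρ₁ 1 ≤ 1 := min_le_right _ _
      have h8 : 0 < min ρ₁ 1 := lt_min hρ₁ one_pos
      nlinarith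
    rw [← mul_assoc]
    gcongr
    exact mauxA_rpow hK0 ENNReal.coe_ne_top (h3 χ h6) hc
  · exact ENNReal.tsum_mono_subtype
      (fun χ : Pt B => (K : ℝ≥0∞) ^ c * (sq Gen χ ^ (-c) * ‖χ h‖ₑ ^ (-(2 * s))))
      (s := {χ : Pt B | χ ∈ UU G sg (min ρ₁ 1) ∧ proj G.y χ = w})
      (t := {χ : Pt B | χ ∈ UU G sg ρ₁ ∧ proj G.y χ = w})
      fun χ hχ => ⟨⟨hχ.1.1.trans_le (by
        have h8 : 0 < min ρ₁ 1 := lt_min hρ₁ one_pos
        gcongr; exact min_le_left _ _), hχ.1.2⟩, hχ.2⟩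

end

end Pool.Agent.Odp2
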