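import Pool.Agent.Odp2.Horm.Defs
import Pool.Agent.Odp2.Main.Defs
import Pool.Agent.Odp2.Main.MAux4
import Pool.Agent.Odp2.Main.MAuxA
import Pool.Agent.Odp2.Horm.Cut
import Pool.Agent.Odp2.Horm.Dual
import Pool.Agent.Odp2.Horm.Coef0
import Pool.Agent.Odp2.Lim.Eval
import Pool.Agent.Odp2.Lim.Van
import Pool.Agent.Odp2.Lim.Unif
import Pool.Agent.Odp2.An.Pole

open scoped ContDiff Topology ENNReal NNReal WithZero
open Set MeasureTheory Filter MvPolynomial Pool.Agent.ODP Pool.Agent.ToricKRF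
  Pool.Agent.ToricKRF.G Pool.Agent.KRFS Pool.Agent.KRFQ

namespace Pool.Agent.Odp2

/-- In the zero-dimensional case `B = ℂ`. -/
theorem maux_zero {d : ℕ} {B : Type} [CommRing B] [IsDomain B] [Algebra ℂ B] (G : Germ 0 d B)
    {x : Pt B} {z : B} (hz : x z = 0) : z = 0 := by
  classical
  have hfin : Module.Finite ℂ B := by
    refine ⟨⟨Finset.univ.image G.e, ?_⟩⟩
    rw [eq_top_iff]
    intro b _
    rw [G.cf_spec b]
    refine Submodule.sum_mem _ fun i _ => ?_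
    rw [MvPolynomial.eq_C_of_isEmpty (G.cf b i), aeval_C, ← Algebra.smul_def]
    exact Submodule.smul_mem _ _ (Submodule.subset_span (by simp))
  have hs : Function.Bijective (algebraMap ℂ B) :=
    IsAlgClosed.algebraMap_bijective_of_isIntegral
  obtain ⟨c, rfl⟩ := hs.2 z
  rw [AlgHom.commutes] at hz
  have h1 : c = 0 := hz
  rw [h1, map_zero]

/-- Theorem M. -/
theorem main_estimate {n d : ℕ} {B : Type} [CommRing B] [IsDomain B] [Algebra ℂ B]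
    {G : Germ n d B} {x : Pt B} {sg : B} {m : ℕ} (hm : G.D.totalDegree < m)
    (hsg : IsSep G x m sg) {h : B} {s ρ₁ : ℝ} (hM : IsMeas G x h s sg ρ₁) (p : Pts G x)
    {a : Fin n → ℕ} (ha : ∀ j, 1 ≤ a j) {N : ℕ} (hN : 1 ≤ N) {β : ℝ} (hβ : 0 ≤ β) {z : B}
    (hz : x z = 0) (hz1 : z ∉ JI p (one n) 1)
    (hzβ : ∀ (L : ℕ) (f : Fin L → B), Ideal.span (range f) = JI p a N → ∃ C ρ : ℝ, 0 < ρ ∧
      ∀ χ ∈ UU G sg ρ, (‖χ z‖ ^ 2) ^ (N : ℝ) ≤ C * (∑ l, ‖χ (f l)‖ ^ 2) ^ β)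
    {c : ℝ} (hc0 : 0 ≤ c) (hc : ((∑ j, a j : ℕ) : ℝ) - β < c * N) (Gen : Finset B)
    (hG : Ideal.span (Gen : Set B) = JI p a N) :
    ¬ NearInt G.y h s x fun χ => sq Gen χ ^ (-c) := by
  have _ := hβ
  intro hNI
  apply hz1
  have hm1 : 1 ≤ m := by omega
  rcases Nat.eq_zero_or_pos n with hn0 | hn
  · subst hn0
    rw [maux_zero G hz]
    exact Ideal.zero_mem _
  obtain ⟨L, f, F, hspan, hmono, hvan, hclose⟩ := JI_gens p ha N
  have hN0 : (0:ℝ) < N := by exact_mod_cast hN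
  set A : ℝ := ((∑ j, a j : ℕ) : ℝ) / N with hA
  have hA0 : 0 ≤ A := by positivity
  have hAN : ((∑ j, a j : ℕ) : ℝ) ≤ A * N := by rw [hA, div_mul_cancel₀ _ hN0.ne']
  have hAc : A - β / N < c := by
    rw [hA, ← sub_div, div_lt_iff₀ hN0]
    exact hc
  have hf : ∀ l, x (f l) = 0 := fun l =>
    JI_le_ker p hN (hspan ▸ Ideal.subset_span (s := range f) ⟨l, rfl⟩)
  obtain ⟨δ, ρs, K, hδ, hρs, hK, hshell⟩ :=
    maux_shell hsg hn hN hf hmono hA0 hAc (hzβ L f hspan)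
  obtain ⟨ρc, C₀, hρc, hC₀, hcut⟩ := cut_solve hm1 hsg
  obtain ⟨ρe, hρe, hext⟩ := coef_ext hm1 hsg
  obtain ⟨ρn, hρn, hnear⟩ := mauxA_near hm1 hsg hM.s_nonneg hc0 Gen f (hG.trans hspan.symm) hNI
  obtain ⟨κ, hκ, hwt⟩ := maux_wt_low G f hA0 hδ.le
  obtain ⟨ρ, hρ, hρ1, hρs', hρc', hρe', hρn', hρm'⟩ : ∃ ρ : ℝ, 0 < ρ ∧ ρ ≤ 1 ∧ ρ ≤ ρs ∧
      ρ ≤ ρc ∧ ρ ≤ ρe ∧ ρ ≤ ρn ∧ ρ ≤ ρ₁ := by
    refine ⟨min 1 (min ρs (min ρc (min ρe (min ρn ρ₁)))), ?_, ?_, ?_, ?_, ?_, ?_, ?_⟩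
    · have := hM.pos
      positivity
    all_goals simp
  have hisQ := maux_isQ G hρ
  have hUU : ∀ ρ' : ℝ, ρ ≤ ρ' → ∀ χ ∈ VV G sg (fun w => eval w G.D) ρ, χ ∈ UU G sg ρ' :=
    fun ρ' hle χ hχ => ⟨hχ.1.trans_le (by gcongr), hχ.2.2⟩
  have hh : ∀ χ ∈ VV G sg (fun w => eval w G.D) ρ, χ h ≠ 0 := fun χ hχ => hM.h_ne χ hχ.2.1
  have hmfin : sumI G (VV G sg (fun w => eval w G.D) ρ) (fun χ => ‖χ h‖ₑ ^ (-(2 * s))) ≠ ⊤ :=
    ne_top_of_le_ne_top hM.fin (sumI_mono G (hUU ρ₁ hρm') _)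
  have hmfin' : sumI G (VV G sg (fun w => eval w G.D) ρ)
      (fun χ => ENNReal.ofReal (‖χ h‖ ^ (-(2 * s)))) ≠ ⊤ := by
    rw [cut_sumI_congr (F' := fun χ => ‖χ h‖ₑ ^ (-(2 * s)))]
    · exact hmfin
    · intro χ hχ
      rw [← ENNReal.ofReal_rpow_of_pos (norm_pos_iff.2 (hh χ hχ)), ofReal_norm]
  obtain ⟨Cdu, hCdu⟩ := hM.du
  obtain ⟨C', hC'⟩ := hext ρ (fun w => eval w G.D) hρe' hisQ (fun χ => ‖χ h‖ₑ ^ (-(2 * s))) Cdu
    (fun χ hχ i => hCdu χ (hUU ρ₁ hρm' χ hχ) hχ.2.1 i) (ρ / 2) (by positivity) (by linarith)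
  -- the function `z`
  have hzhol : HolV G (VV G sg (fun w => eval w G.D) ρ) (fun χ => χ z) := fun Ω S hS => hS.holo z
  have hzfin : sumI G (VV G sg (fun w => eval w G.D) ρ)
      (fun χ => ‖χ z‖ₑ ^ 2 * ‖χ h‖ₑ ^ (-(2 * s))) ≠ ⊤ := by
    obtain ⟨Cz, hCz⟩ := G.bdd z 1
    refine ne_top_of_le_ne_top (ENNReal.mul_ne_top (a := ENNReal.ofReal Cz ^ 2)
      (by simp) hmfin) (cut_sumI_le (by simp) fun χ hχ => Or.inl ⟨hχ, ?_⟩)
    have h1 : nq (proj G.y χ) ≤ 1 := hχ.1.le.trans (by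
      have : ρ ^ 2 ≤ 1 ^ 2 := by gcongr
      linarith)
    have h2 : ‖χ z‖ₑ ≤ ENNReal.ofReal Cz := by
      rw [← ofReal_norm]
      exact ENNReal.ofReal_le_ofReal (hCz χ h1)
    gcongr
  obtain ⟨ζz, hζz1, hζz2, -, -⟩ := hC' (fun χ => χ z) hzhol hzfin
  have hζ0 : ∀ i, ζz i 0 = eval 0 (G.cf (z * sg) i) :=
    coef_zero hm hsg hisQ z hζz1 hζz2
  refine maux_final hm1 hsg p ha ?_
  have hgoal : ∑ k, algebraMap ℂ B (ζz k 0) * G.e k ∈ JI p a 1 := by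
    refine maux_closed G (JI p a 1) (fun k => ζz k 0) fun ε hε => ?_
    have hnearV : sumI G (VV G sg (fun w => eval w G.D) ρ) (fun χ =>
        (∑ l, ‖χ (f l)‖ₑ ^ 2) ^ (-c) * ‖χ h‖ₑ ^ (-(2 * s))) ≠ ⊤ :=
      ne_top_of_le_ne_top hnear (sumI_mono G (hUU ρn hρn') _)
    -- the choice of `r`
    obtain ⟨τ, hτ, hτtop, hτ'⟩ : ∃ τ : ℝ≥0∞, 0 < τ ∧ τ ≠ ⊤ ∧ C' * (2 * ENNReal.ofReal κ⁻¹ *
        (ENNReal.ofReal (C₀ / δ) * (ENNReal.ofReal K * τ)) + 2 * τ) ≤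
        ENNReal.ofReal (ε ^ 2) := by
      set T : ℝ≥0∞ := C' * (2 * ENNReal.ofReal κ⁻¹ *
        (ENNReal.ofReal (C₀ / δ) * ENNReal.ofReal K) + 2) with hT
      have hTtop : T + 1 ≠ ⊤ := by
        refine ENNReal.add_ne_top.2 ⟨?_, by norm_num⟩
        rw [hT]
        refine ENNReal.mul_ne_top ENNReal.coe_ne_top (ENNReal.add_ne_top.2 ⟨?_, by norm_num⟩)
        exact ENNReal.mul_ne_top (ENNReal.mul_ne_top (by norm_num) ENNReal.ofReal_ne_top)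
          (ENNReal.mul_ne_top ENNReal.ofReal_ne_top ENNReal.ofReal_ne_top)
      refine ⟨ENNReal.ofReal (ε ^ 2) / (T + 1), ENNReal.div_pos ?_ hTtop,
        ENNReal.div_ne_top ENNReal.ofReal_ne_top (by simp), ?_⟩
      · simp only [ne_eq, ENNReal.ofReal_eq_zero, not_le]
        positivity
      · calc C' * (2 * ENNReal.ofReal κ⁻¹ * (ENNReal.ofReal (C₀ / δ) * (ENNReal.ofReal K *
              (ENNReal.ofReal (ε ^ 2) / (T + 1)))) + 2 * (ENNReal.ofReal (ε ^ 2) / (T + 1)))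
            = T * (ENNReal.ofReal (ε ^ 2) / (T + 1)) := by
              rw [hT]
              ring
          _ ≤ (T + 1) * (ENNReal.ofReal (ε ^ 2) / (T + 1)) := by
              gcongr
              exact le_self_add
          _ ≤ _ := ENNReal.mul_div_le
    obtain ⟨r₁, hr₁, hsm₁⟩ := mauxA_small hn G _ _ hnearV hτ
    obtain ⟨r₂, hr₂, hsm₂⟩ := mauxA_small hn G _ _ hzfin hτ
    obtain ⟨r, hr, hrρ, hrr₁, hrr₂⟩ : ∃ r : ℝ, 0 < r ∧ r ≤ ρ / 2 ∧ r ≤ r₁ ∧ r ≤ r₂ := by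
      refine ⟨min (ρ / 2) (min r₁ r₂), by positivity, ?_, ?_, ?_⟩
      all_goals simp
    have hI1 := hsm₁ r hr hrr₁
    have hI2 := hsm₂ r hr hrr₂
    obtain ⟨ε₁, hε₁, hε₁1, hcl⟩ := maux_close hn hN hmono hr
    obtain ⟨cc, hcc, hE⟩ := eval_mem_JI p ha
    set M : ℝ≥0∞ := ENNReal.ofReal (C₀ / δ) * (ENNReal.ofReal K * τ) with hMdef
    have hMtop : M ≠ ⊤ := ENNReal.mul_ne_top ENNReal.ofReal_ne_top
      (ENNReal.mul_ne_top ENNReal.ofReal_ne_top hτtop)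
    -- the eventual properties
    have hqt := pts_tendsto_q_hyper p
    have e1 : ∀ᶠ ν in (hyperfilter ℕ : Filter ℕ), nq (p.q ν) < r ^ 2 := by
      have h1 := (maux_cont_nq.tendsto (0 : Fin n → ℂ)).comp hqt
      have h2 : nq (0 : Fin n → ℂ) = 0 := by simp [nq]
      rw [h2] at h1
      exact h1.eventually_lt_const (by positivity)
    have e2 : ∀ᶠ ν in (hyperfilter ℕ : Filter ℕ), ∀ i, ‖p.p i ν sg - 1‖ < 1 / 2 := by
      rw [eventually_all]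
      intro i
      have h1 := ((pts_tendsto_hyper p i sg).sub_const 1).norm
      rw [hsg.x_sg, sub_self, norm_zero] at h1
      exact h1.eventually_lt_const (by norm_num)
    have e3 := hclose 1 ε₁ hε₁
    have hT : ∀ k, Tendsto (fun ν => ζz k (p.q ν)) (hyperfilter ℕ : Filter ℕ)
        (𝓝 (ζz k 0)) := by
      intro k
      have h0 : (0 : Fin n → ℂ) ∈ bal n ρ := by
        change nq (0 : Fin n → ℂ) < ρ ^ 2
        have h2 : nq (0 : Fin n → ℂ) = 0 := by simp [nq]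
        rw [h2]
        positivity
      exact (((hζz1 k).differentiableAt ((dual_isOpen_bal n ρ).mem_nhds
        h0)).continuousAt.tendsto).comp hqt
    have key : ∀ᶠ ν in (hyperfilter ℕ : Filter ℕ), ∃ u : Fin d → ℂ,
        (∀ i, ‖∑ k, u k * p.p i ν (G.e k)‖ ≤ cc ν) ∧ ∀ k, ‖u k - ζz k (p.q ν)‖ ≤ ε := by
      filter_upwards [e1, e2, e3, hvan] with ν h1 h2 h3 h4
      have hP : ∀ i, p.p i ν ∈ VV G sg (fun w => eval w G.D) ρ := by
        intro i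
        refine ⟨?_, ?_, h2 i⟩
        · rw [p.proj_p]
          refine h1.trans_le ?_
          have : r ≤ ρ := by linarith
          gcongr
        · rw [p.proj_p]
          exact p.D_ne ν
      have hq1 : ∀ χ ∈ VV G sg (fun w => eval w G.D) ρ, nq (proj G.y χ) ≤ 1 := fun χ hχ =>
        hχ.1.le.trans (by
          have : ρ ^ 2 ≤ 1 ^ 2 := by gcongr
          linarith)
      refine maux_nu (A := A) (δ := δ) (κ := κ) (ρ' := ρ / 2) (F := fun l => F l ν) (M := M)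
        hn ha hN hA0 hAN hδ hM.s_nonneg hr hκ hrρ (by linarith) hh (fun i => p.proj_p i ν) hP h1
        h4 hMtop ?_ ?_ (mauxA_aemeas G sg z h s ρ) hC' ?_ ?_ (hcc ν) hε.le ?_
      · intro η hη hη1
        obtain ⟨Z, hZ1, hZ2, hZ3⟩ := hcut ρ (fun w => eval w G.D) hρc' hisQ h hh s hM.s_nonneg
          hmfin' L (fun l => F l ν) η A r δ hη hA0 hr hδ z
        refine ⟨Z, hZ1, hZ2, hZ3.trans ?_⟩
        rw [hMdef]
        gcongr
        refine (cut_sumI_le (G := G) (S' := {χ | χ ∈ VV G sg (fun w => eval w G.D) ρ ∧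
          nq (proj G.y χ) ≤ 4 * r ^ 2}) (F' := fun χ => (∑ l, ‖χ (f l)‖ₑ ^ 2) ^ (-c) *
          ‖χ h‖ₑ ^ (-(2 * s))) (c := ENNReal.ofReal K) ENNReal.ofReal_ne_top
          fun χ hχ => Or.inl ⟨⟨hχ.1, hχ.2.2⟩, ?_⟩).trans (by gcongr)
        have h5 := hshell h s χ (hUU ρs hρs' χ hχ.1) r hr hχ.2.1 (fun l => F l ν) η hη
          (hcl χ _ hχ.2.1 fun l => h3 l χ (hq1 χ hχ.1))
        have h6 : 0 < ∑ l, ‖χ (f l)‖ ^ 2 := by
          have h7 := maux_low hN hmono χ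
          have h8 : 0 < nq (proj G.y χ) ^ N :=
            pow_pos ((by positivity : 0 < r ^ 2).trans_le hχ.2.1) _
          have h9 : (0:ℝ) < (n : ℝ) ^ N := by
            have : (0:ℝ) < n := by exact_mod_cast hn
            positivity
          by_contra! hcon
          nlinarith
        have h7 : ∑ l, ‖χ (f l)‖ₑ ^ 2 = ENNReal.ofReal (∑ l, ‖χ (f l)‖ ^ 2) := by
          rw [ENNReal.ofReal_sum_of_nonneg fun l _ => by positivity]
          refine Finset.sum_congr rfl fun l _ => ?_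
          rw [ENNReal.ofReal_pow (norm_nonneg _), ofReal_norm]
        rw [h7, ENNReal.ofReal_rpow_of_pos h6, ← ofReal_norm (χ h),
          ENNReal.ofReal_rpow_of_pos (norm_pos_iff.2 (hh χ hχ.1)),
          ← ENNReal.ofReal_mul (by positivity), ← ENNReal.ofReal_mul hK]
        exact ENNReal.ofReal_le_ofReal h5
      · intro η hη hη1 χ hχ
        exact hwt h s r η _ χ hr (by linarith) hη hη1 (hq1 χ hχ)
          fun l => (h3 l χ (hq1 χ hχ)).trans hε₁1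
      · intro i
        refine hζz2 i (p.q ν) ?_ (p.D_ne ν)
        change nq (p.q ν) < ρ ^ 2
        refine h1.trans_le ?_
        have : r ≤ ρ := by linarith
        gcongr
      · exact ne_top_of_le_ne_top hτtop hI2
      · refine le_trans ?_ hτ'
        gcongr
    rw [Filter.skolem] at key
    obtain ⟨u, hu⟩ := key
    obtain ⟨v', hv'⟩ := maux_limit u (ε + (∑ k, ‖ζz k 0‖ + 1)) (by
      have e5 : ∀ᶠ ν in (hyperfilter ℕ : Filter ℕ), ∀ k, ‖ζz k (p.q ν)‖ < ‖ζz k 0‖ + 1 := by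
        rw [eventually_all]
        intro k
        exact (hT k).norm.eventually_lt_const (by linarith)
      filter_upwards [hu, e5] with ν h1 h2 k
      have h3 : ‖ζz k 0‖ ≤ ∑ k, ‖ζz k 0‖ :=
        Finset.single_le_sum (f := fun k => ‖ζz k 0‖) (fun _ _ => norm_nonneg _)
          (Finset.mem_univ k)
      calc ‖u ν k‖ = ‖(u ν k - ζz k (p.q ν)) + ζz k (p.q ν)‖ := by rw [sub_add_cancel]
        _ ≤ ‖u ν k - ζz k (p.q ν)‖ + ‖ζz k (p.q ν)‖ := norm_add_le _ _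
        _ ≤ _ := add_le_add (h1.2 k) ((h2 k).le.trans (by linarith)))
    refine ⟨v', hE u v' hv' (hu.mono fun ν h => h.1), fun k => ?_⟩
    exact le_of_tendsto ((hv' k).sub (hT k)).norm (hu.mono fun ν h => h.2 k)
  simpa only [hζ0] using hgoal

end Pool.Agent.Odp2
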