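import Pool.Agent.Odp2.Defs
import Pool.Agent.Odp2.Main.M
import Pool.Agent.Odp2.Lim.Colength
import Pool.Agent.Odp2.Vol.Fujita
import Pool.Agent.Odp2.Vol.Count

open scoped ContDiff Topology ENNReal NNReal WithZero
open Set MeasureTheory Filter MvPolynomial Pool.Agent.ODP

namespace Pool.Agent.Odp2

/-- `B` is Noetherian. -/
theorem Bound.isNoetherianRing {n d : ℕ} {B : Type} [CommRing B] [Algebra ℂ B]
    (G : Germ n d B) : IsNoetherianRing B := by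
  let _ : Algebra (MvPolynomial (Fin n) ℂ) B :=
    (MvPolynomial.aeval G.y : MvPolynomial (Fin n) ℂ →ₐ[ℂ] B).toRingHom.toAlgebra
  have hfin : Module.Finite (MvPolynomial (Fin n) ℂ) B := by
    classical
    refine ⟨⟨Finset.univ.image G.e, ?_⟩⟩
    rw [eq_top_iff]
    intro b _
    rw [G.cf_spec b]
    refine Submodule.sum_mem _ fun i _ => ?_
    have h1 : MvPolynomial.aeval G.y (G.cf b i) * G.e i = G.cf b i • G.e i := by
      rw [Algebra.smul_def]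
      rfl
    rw [h1]
    exact Submodule.smul_mem _ _ (Submodule.subset_span (by simp))
  exact IsNoetherianRing.of_finite (MvPolynomial (Fin n) ℂ) B

/-- `J_N` is primary to the maximal ideal of `x`. -/
theorem Bound.isPrimaryAt_JI {n d : ℕ} {B : Type} [CommRing B] [IsDomain B] [Algebra ℂ B]
    {G : Germ n d B} {x : Pt B} (p : Pts G x) {a : Fin n → ℕ} (ha : ∀ j, 1 ≤ a j) {N : ℕ}
    (hN : 1 ≤ N) : IsPrimaryAt x (JI p a N) := by
  have := Bound.isNoetherianRing G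
  refine ⟨JI_le_ker p hN, ?_⟩
  obtain ⟨k, hk⟩ := Ideal.exists_radical_pow_le_of_fg (JI p a N) (IsNoetherian.noetherian _)
  refine ⟨k, le_trans (Ideal.pow_right_mono (fun b hb => ?_) k) hk⟩
  exact ⟨2 * N, pow_mem_JI p ha N hb⟩

/-- The bound of the log canonical threshold of `J_N`. -/
theorem Bound.lct_JI_le {n d : ℕ} {B : Type} [CommRing B] [IsDomain B] [Algebra ℂ B]
    {G : Germ n d B} {x : Pt B} {sg : B} {m : ℕ} (hm : G.D.totalDegree < m)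
    (hsg : IsSep G x m sg) {h : B} {s ρ₁ : ℝ} (hM : IsMeas G x h s sg ρ₁) (p : Pts G x)
    {a : Fin n → ℕ} (ha : ∀ j, 1 ≤ a j) {N : ℕ} (hN : 1 ≤ N) {β : ℝ} (hβ : 0 ≤ β)
    (hβ2 : β ≤ (∑ j, a j : ℕ)) {z : B}
    (hz : x z = 0) (hz1 : z ∉ JI p (one n) 1)
    (hzβ : ∀ (L : ℕ) (f : Fin L → B), Ideal.span (range f) = JI p a N → ∃ C ρ : ℝ, 0 < ρ ∧
      ∀ χ ∈ UU G sg ρ, (‖χ z‖ ^ 2) ^ (N : ℝ) ≤ C * (∑ l, ‖χ (f l)‖ ^ 2) ^ β) :
    lct G.y h s x (JI p a N) ≤ ENNReal.ofReal ((((∑ j, a j : ℕ) : ℝ) - β) / N) := by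
  have hN0 : (0 : ℝ) < N := by exact_mod_cast hN
  refine iSup₂_le fun c hc => ?_
  obtain ⟨Gen, hG, hI⟩ := hc
  by_contra hlt
  rw [not_le] at hlt
  have h1 : (((∑ j, a j : ℕ) : ℝ) - β) / N < c := by
    rw [← ENNReal.ofReal_coe_nnreal,
      ENNReal.ofReal_lt_ofReal_iff_of_nonneg (div_nonneg (by linarith) hN0.le)] at hlt
    exact hlt
  have h2 : ((∑ j, a j : ℕ) : ℝ) - β < c * N := by
    rwa [div_lt_iff₀ hN0] at h1
  exact main_estimate hm hsg hM p ha hN hβ hz hz1 hzβ c.2 h2 Gen hG hI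

/-- Theorem M and the volume: the general bound. -/
theorem nvol_le {n d : ℕ} {B : Type} [CommRing B] [IsDomain B] [Algebra ℂ B]
    {G : Germ n d B} {x : Pt B} {sg : B} {m : ℕ} (hn : 1 ≤ n) (hm : G.D.totalDegree < m)
    (hsg : IsSep G x m sg) {h : B} {s ρ₁ : ℝ} (hM : IsMeas G x h s sg ρ₁) (p : Pts G x)
    {a : Fin n → ℕ} (ha : ∀ j, 1 ≤ a j) {β : ℝ} (hβ : 0 ≤ β) (hβ2 : β ≤ (∑ j, a j : ℕ)) {z : B}
    (hz : x z = 0) (hz1 : z ∉ JI p (one n) 1) {q : ℕ} (hq : 1 ≤ q)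
    (hzβ : ∀ N : ℕ, 1 ≤ N → q ∣ N → ∀ (L : ℕ) (f : Fin L → B),
      Ideal.span (range f) = JI p a N → ∃ C ρ : ℝ, 0 < ρ ∧
      ∀ χ ∈ UU G sg ρ, (‖χ z‖ ^ 2) ^ (N : ℝ) ≤ C * (∑ l, ‖χ (f l)‖ ^ 2) ^ β) :
    nvol G.y h s x ≤ ENNReal.ofReal (2 * (((∑ j, a j : ℕ) : ℝ) - β) ^ n / ∏ j, (a j : ℝ)) := by
  set S : ℝ := ((∑ j, a j : ℕ) : ℝ) - β with hS
  set P : ℝ := ∏ j, (a j : ℝ) with hP
  have hS0 : 0 ≤ S := by rw [hS]; linarith
  have hv : Tendsto (fun N : ℕ => ((n.factorial * colength ℂ (JI p a N) : ℕ) : ℝ) /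
      (N : ℝ) ^ n) atTop (𝓝 (2 * P⁻¹)) := by
    have h1 := (tendsto_card a ha).const_mul (2 : ℝ)
    refine h1.congr fun N => ?_
    rw [colength_JI p ha N]
    push_cast
    ring
  have hkey : ∀ k : ℕ, nvol G.y h s x ≤
      ENNReal.ofReal (S ^ n * (2 * P⁻¹ + 1 / ((k : ℝ) + 1))) := by
    intro k
    have hε : (0 : ℝ) < 1 / ((k : ℝ) + 1) := by positivity
    obtain ⟨N, hN, hqN, hmult⟩ := mult_le G hn (JI p a) (JI_mul p a) (fun N mm hmm =>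
      mono_mem_JI p a (hmm.trans (Finset.sum_le_sum fun j _ =>
        Nat.le_mul_of_pos_left _ (ha j)))) hv hε hq
    have hN0 : (0 : ℝ) < N := by exact_mod_cast hN
    have h1 : nvol G.y h s x ≤ lct G.y h s x (JI p a N) ^ n * mult n (JI p a N) :=
      iInf₂_le (JI p a N) (Bound.isPrimaryAt_JI p ha hN)
    have h2 := Bound.lct_JI_le hm hsg hM p ha hN hβ hβ2 hz hz1 (hzβ N hN hqN)
    refine h1.trans ((mul_le_mul' (pow_le_pow_left' h2 n) hmult).trans (le_of_eq ?_))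
    rw [← ENNReal.ofReal_pow (div_nonneg hS0 hN0.le), ← ENNReal.ofReal_mul (by positivity)]
    congr 1
    rw [div_pow]
    field_simp
  have hlim : Tendsto (fun k : ℕ => ENNReal.ofReal (S ^ n * (2 * P⁻¹ + 1 / ((k : ℝ) + 1)))) atTop
      (𝓝 (ENNReal.ofReal (S ^ n * (2 * P⁻¹ + 0)))) :=
    ENNReal.tendsto_ofReal ((tendsto_one_div_add_atTop_nhds_zero_nat.const_add _).const_mul _)
  refine (ge_of_tendsto' hlim hkey).trans (le_of_eq ?_)
  congr 1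
  rw [add_zero, div_eq_mul_inv]
  ring

end Pool.Agent.Odp2
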