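import Pool.Agent.Odp2.Defs
import Pool.Agent.Odp2.Main.Bound
import Pool.Agent.Odp2.Main.Setup
import Pool.Agent.Odp2.Main.SetupB
import Pool.Agent.Odp2.Alg.Germ
import Pool.Agent.Odp2.Alg.Canon
import Pool.Agent.Odp2.Alg.Sep
import Pool.Agent.Odp2.Pt.Red
import Pool.Agent.Odp2.Pt.Sheets

open scoped ContDiff Topology ENNReal NNReal WithZero
open Set MeasureTheory Filter MvPolynomial Pool.Agent.ODP

namespace Pool.Agent.Odp2

/-- An element of the ideal generated by `f` is bounded by `|f|` near `x`. -/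
theorem Ineq.sq_le {n d : ℕ} {B : Type} [CommRing B] [Algebra ℂ B] (G : Germ n d B) {L : ℕ}
    (f : Fin L → B) {b : B} (hb : b ∈ Ideal.span (range f)) :
    ∃ K : ℝ, 0 ≤ K ∧ ∀ χ : Pt B, nq (proj G.y χ) ≤ 1 → ‖χ b‖ ^ 2 ≤ K * ∑ l, ‖χ (f l)‖ ^ 2 := by
  obtain ⟨c, hc⟩ := Ideal.mem_span_range_iff_exists_fun.1 hb
  choose C hC using fun l => G.bdd (c l) 1
  refine ⟨∑ l, (C l) ^ 2, by positivity, fun χ hχ => ?_⟩
  have h1 : ‖χ b‖ ≤ ∑ l, |C l| * ‖χ (f l)‖ := by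
    rw [← hc, map_sum]
    refine (norm_sum_le _ _).trans (Finset.sum_le_sum fun l _ => ?_)
    rw [map_mul, norm_mul]
    exact mul_le_mul_of_nonneg_right ((hC l χ hχ).trans (le_abs_self _)) (norm_nonneg _)
  calc ‖χ b‖ ^ 2 ≤ (∑ l, |C l| * ‖χ (f l)‖) ^ 2 := by gcongr
    _ ≤ (∑ l, |C l| ^ 2) * ∑ l, ‖χ (f l)‖ ^ 2 := Finset.sum_mul_sq_le_sq_mul_sq _ _ _
    _ = _ := by simp only [sq_abs]

theorem Ineq.nq_pow_le {n : ℕ} (w : Fin n → ℂ) (N : ℕ) {S : ℝ} (hN : 1 ≤ N)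
    (h : ∀ j, ‖w j ^ N‖ ^ 2 ≤ S) (hS : 0 ≤ S) : nq w ^ N ≤ (n : ℝ) ^ N * S := by
  rcases Nat.eq_zero_or_pos n with rfl | hn
  · have : nq w = 0 := by simp [nq]
    rw [this, zero_pow (by omega)]
    positivity
  · have : Nonempty (Fin n) := ⟨⟨0, hn⟩⟩
    obtain ⟨j, hj⟩ := Finite.exists_max fun j => ‖w j‖ ^ 2
    have h1 : nq w ≤ n * ‖w j‖ ^ 2 := by
      calc nq w ≤ ∑ _j : Fin n, ‖w j‖ ^ 2 := Finset.sum_le_sum fun i _ => hj i
        _ = _ := by simp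
    calc nq w ^ N ≤ (n * ‖w j‖ ^ 2) ^ N := by
          gcongr
          exact nq_nonneg w
      _ = (n : ℝ) ^ N * ‖w j ^ N‖ ^ 2 := by
          rw [mul_pow, norm_pow, ← pow_mul, ← pow_mul, mul_comm 2 N]
      _ ≤ _ := by
          gcongr
          exact h j

/-- The bound of an element of the maximal ideal by the limit ideals. -/
theorem Ineq.bound {n d : ℕ} {B : Type} [CommRing B] [IsDomain B] [Algebra ℂ B]
    {G : Germ n d B} {x : Pt B} {sg : B} {m : ℕ} (hm : 1 ≤ m) (hsg : IsSep G x m sg)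
    (hred : IsReductionAt (RingHom.ker x) G.y) (p : Pts G x) {z : B} (hz : x z = 0) {N : ℕ}
    (hN : 1 ≤ N) {L : ℕ} (f : Fin L → B) (hf : Ideal.span (range f) = JI p (one n) N) :
    ∃ C ρ : ℝ, 0 < ρ ∧ ∀ χ ∈ UU G sg ρ,
      (‖χ z‖ ^ 2) ^ (N : ℝ) ≤ C * (∑ l, ‖χ (f l)‖ ^ 2) ^ (1 : ℝ) := by
  classical
  obtain ⟨C, ρ, hρ, hC⟩ := hsg.red hm hred hz
  have hy : ∀ j, G.y j ^ N ∈ Ideal.span (range f) := by
    intro j
    rw [hf]
    have h1 := mono_mem_JI p (one n) (N := N) (m := Pi.single j N) (by simp [one])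
    convert h1 using 1
    rw [Finset.prod_eq_single j]
    · simp
    · intro i _ hi
      simp [Pi.single_eq_of_ne hi]
    · simp
  choose K hK0 hK using fun j => Ineq.sq_le G f (hy j)
  refine ⟨|C| ^ N * ((n : ℝ) ^ N * ∑ j, K j), min ρ 1, by positivity, fun χ hχ => ?_⟩
  have hmin : 0 ≤ min ρ 1 := by positivity
  have h1 := hC χ (setup_UU_mono G sg hmin (min_le_left _ _) hχ)
  have h2 : nq (proj G.y χ) ≤ 1 := by
    refine hχ.1.le.trans ?_
    calc min ρ 1 ^ 2 ≤ 1 ^ 2 := by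
          gcongr
          exact min_le_right _ _
      _ = 1 := one_pow 2
  set S : ℝ := ∑ l, ‖χ (f l)‖ ^ 2 with hS
  have hS0 : 0 ≤ S := by positivity
  have hq0 := nq_nonneg (proj G.y χ)
  rw [Real.rpow_natCast, Real.rpow_one]
  have h3 : nq (proj G.y χ) ^ N ≤ (n : ℝ) ^ N * ((∑ j, K j) * S) := by
    refine Ineq.nq_pow_le _ N hN (fun j => ?_) (by
      have : 0 ≤ ∑ j, K j := Finset.sum_nonneg fun j _ => hK0 j
      positivity)
    have h4 := hK j χ h2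
    rw [map_pow] at h4
    refine h4.trans ?_
    gcongr
    exact Finset.single_le_sum (f := K) (fun i _ => hK0 i) (Finset.mem_univ j)
  calc (‖χ z‖ ^ 2) ^ N ≤ (|C| * nq (proj G.y χ)) ^ N := by
        gcongr
        exact h1.trans (mul_le_mul_of_nonneg_right (le_abs_self _) hq0)
    _ = |C| ^ N * nq (proj G.y χ) ^ N := mul_pow _ _ _
    _ ≤ |C| ^ N * ((n : ℝ) ^ N * ((∑ j, K j) * S)) := by gcongr
    _ = _ := by ring

/-- The inequality, under the standing hypotheses. -/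
theorem Std.nvol_le {n d : ℕ} {B : Type} [CommRing B] [IsDomain B] [Algebra ℂ B]
    {G : Germ n d B} {x : Pt B} {h : B} {s κ : ℝ} {sg : B} {m : ℕ} {ρ₁ : ℝ}
    (S : Std G x h s κ sg m ρ₁) (p : Pts G x) :
    nvol G.y h s x ≤ ENNReal.ofReal (2 * ((n : ℝ) - 1) ^ n) := by
  obtain ⟨z, hz, hz1⟩ := exists_z p
  have hsum : (∑ j, one n j : ℕ) = n := by simp [one]
  have h1 := Pool.Agent.Odp2.nvol_le (a := one n) (β := 1) (q := 1) (by have := S.hn; omega)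
    S.hm S.sep S.meas p (fun _ => le_rfl) zero_le_one
    (by rw [hsum]; exact_mod_cast (by have := S.hn; omega : 1 ≤ n)) hz hz1 le_rfl
    (fun N hN _ L f hf => Ineq.bound (by have := S.hm; omega) S.sep S.red p hz hN f hf)
  refine h1.trans (le_of_eq ?_)
  rw [hsum]
  simp [one]

/-- The inequality. -/
theorem nvol_le_two_mul {n : ℕ} (hn : 2 ≤ n) {B K : Type} [CommRing B] [IsDomain B]
    [IsIntegrallyClosed B] [Algebra ℂ B] [Field K] [Algebra B K] [IsFractionRing B K]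
    [Algebra ℂ K] [IsScalarTower ℂ B K] (y : Fin n → B) (hy : IsFiniteFree ℂ y) (x : Pt B)
    (hx : proj y x = 0) (hred : IsReductionAt (RingHom.ker x) y) (r : ℕ) (hr : 0 < r) (h : B)
    (hK : IsRCanonicalAt ℂ (RingHom.ker x) (fun i => algebraMap B K (y i)) r (algebraMap B K h))
    (hklt : IsKltAt y h (1 / (r : ℝ)) x) (hsing : n < embDim (RingHom.ker x)) :
    nvol y h (1 / (r : ℝ)) x ≤ ENNReal.ofReal (2 * ((n : ℝ) - 1) ^ n) := by
  have h2 := two_le_paramLength y hy x hx hsing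
  obtain ⟨d, G, m, sg, κ, ρ₁, rfl, S⟩ := exists_std hn y hy x hx hred r hr h hK hklt
  obtain ⟨p⟩ := exists_pts G x hx h2
  exact S.nvol_le p

end Pool.Agent.Odp2
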