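import Pool.Agent.Odp2.Horm.Defs
import Pool.Agent.Odp2.Main.Defs
import Pool.Agent.Odp2.Horm.Cut
import Pool.Agent.Odp2.Horm.Dual
import Pool.Agent.Odp2.Horm.Coef0
import Pool.Agent.Odp2.Lim.Eval
import Pool.Agent.Odp2.Lim.Van
import Pool.Agent.Odp2.Lim.Unif
import Pool.Agent.Odp2.An.Pole

/-!
# Auxiliary lemmas for Theorem M: the shell estimate
-/

open scoped ContDiff Topology ENNReal NNReal WithZero
open Set MeasureTheory Filter MvPolynomial Pool.Agent.ODP Pool.Agent.ToricKRF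
  Pool.Agent.ToricKRF.G Pool.Agent.KRFS Pool.Agent.KRFQ

namespace Pool.Agent.Odp2

variable {n d : ℕ} {B : Type} [CommRing B] [Algebra ℂ B]

/-- the discriminant as a function -/
theorem maux_isQ (G : Germ n d B) {ρ : ℝ} (hρ : 0 < ρ) :
    IsQ G (fun w => eval w G.D) ρ where
  pos := hρ
  holo := by
    have h : Differentiable ℂ fun w : Fin n → ℂ => eval w G.D := by
      induction G.D using MvPolynomial.induction_on with
      | C a => simp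
      | add p q hp hq =>
        simp only [map_add]
        exact hp.add hq
      | mul_X p i hp =>
        simp only [map_mul, eval_X]
        exact hp.mul (differentiable_apply i)
    exact h.differentiableOn
  ne := by
    by_contra! hcon
    apply G.D_ne
    have hinf : ∀ _ : Fin n, (Metric.ball (0 : ℂ) (ρ / (n + 1))).Infinite := fun _ => by
      have hpos : 0 < ρ / (n + 1) := by positivity
      exact infinite_of_mem_nhds (0 : ℂ) (Metric.ball_mem_nhds _ hpos)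
    refine MvPolynomial.funext_set (fun _ : Fin n => Metric.ball (0 : ℂ) (ρ / (n + 1))) hinf ?_
    intro w hw
    rw [map_zero]
    apply hcon
    have h3 : nq w ≤ ∑ _j : Fin n, (ρ / (n + 1)) ^ 2 :=
      Finset.sum_le_sum fun j _ => by
        have := hw j (Set.mem_univ _)
        rw [mem_ball_zero_iff] at this
        have := this.le
        gcongr
    rw [Finset.sum_const, Finset.card_univ, Fintype.card_fin, nsmul_eq_mul] at h3
    refine h3.trans_lt ?_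
    have hn : (0:ℝ) < n + 1 := by positivity
    rw [div_pow, ← mul_div_assoc, div_lt_iff₀ (by positivity)]
    nlinarith [sq_pos_of_pos hρ, sq_nonneg (n:ℝ)]
  D_ne := fun _ _ h => h

theorem maux_nil {G : Germ n d B} {x : Pt B} {sg : B} {m : ℕ} (hsg : IsSep G x m sg) {b : B}
    (hb : x b = 0) : ∃ k₀ : ℕ, ∀ k, k₀ ≤ k → ∃ C : ℝ, 0 ≤ C ∧ ∀ χ ∈ UU G sg 1,
      (‖χ b‖ ^ 2) ^ k ≤ C * nq (proj G.y χ) := by
  obtain ⟨L, hL⟩ := hsg.nil b hb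
  obtain ⟨C, h0, hC⟩ := G.bdd_pow (m := 1) (by simpa using hL) 1
  obtain ⟨M, hM⟩ := G.bdd b 1
  refine ⟨L, fun k hk => ⟨4 * C ^ 2 * (M ^ 2) ^ (k - L), by positivity, fun χ hχ => ?_⟩⟩
  obtain ⟨h1, h2⟩ := hχ
  rw [one_pow] at h1
  have hb1 := hC χ h1.le
  have hM1 := hM χ h1.le
  rw [map_mul, map_pow, norm_mul, norm_pow, pow_one] at hb1
  have hsg1 : 1 / 2 ≤ ‖χ sg‖ := by
    have : (1:ℝ) ≤ ‖χ sg‖ + ‖χ sg - 1‖ := by
      calc (1:ℝ) = ‖χ sg - (χ sg - 1)‖ := by simp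
        _ ≤ _ := norm_sub_le _ _
    linarith
  have h3 : ‖χ b‖ ^ L ≤ 2 * (C * √(nq (proj G.y χ))) := by
    have h5 : 0 ≤ ‖χ b‖ ^ L := by positivity
    have h6 : ‖χ b‖ ^ L * (1 / 2) ≤ C * √(nq (proj G.y χ)) := (by gcongr : _ ≤ _).trans hb1
    linarith
  have h4 : (‖χ b‖ ^ 2) ^ L ≤ 4 * C ^ 2 * nq (proj G.y χ) := by
    have h7 : (‖χ b‖ ^ L) ^ 2 ≤ (2 * (C * √(nq (proj G.y χ)))) ^ 2 := by gcongr
    have h8 : √(nq (proj G.y χ)) ^ 2 = nq (proj G.y χ) := Real.sq_sqrt (nq_nonneg _)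
    calc (‖χ b‖ ^ 2) ^ L = (‖χ b‖ ^ L) ^ 2 := by rw [← pow_mul, ← pow_mul, mul_comm]
      _ ≤ _ := h7
      _ = 4 * C ^ 2 * √(nq (proj G.y χ)) ^ 2 := by ring
      _ = _ := by rw [h8]
  calc (‖χ b‖ ^ 2) ^ k = (‖χ b‖ ^ 2) ^ L * (‖χ b‖ ^ 2) ^ (k - L) := by
        rw [← pow_add, Nat.add_sub_cancel' hk]
    _ ≤ (4 * C ^ 2 * nq (proj G.y χ)) * (M ^ 2) ^ (k - L) := by
        have hn := nq_nonneg (proj G.y χ)
        gcongr
    _ = _ := by ring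

theorem maux_sum_pow {L : ℕ} (a : Fin L → ℝ) (ha : ∀ l, 0 ≤ a l) {k : ℕ} (hk : 1 ≤ k) :
    (∑ l, a l) ^ k ≤ (L : ℝ) ^ k * ∑ l, a l ^ k := by
  rcases Nat.eq_zero_or_pos L with rfl | hL
  · simp [Nat.one_le_iff_ne_zero.1 hk]
  · obtain ⟨l₀, -, h⟩ := Finset.exists_max_image (Finset.univ : Finset (Fin L)) a
      ⟨⟨0, hL⟩, Finset.mem_univ _⟩
    have h1 : ∑ l, a l ≤ L * a l₀ := by
      have := Finset.sum_le_card_nsmul Finset.univ a (a l₀) (fun l hl => h l hl)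
      simpa [nsmul_eq_mul] using this
    calc (∑ l, a l) ^ k ≤ (L * a l₀) ^ k := by
          have := Finset.sum_nonneg fun l (_ : l ∈ Finset.univ) => ha l
          gcongr
      _ = (L : ℝ) ^ k * a l₀ ^ k := mul_pow _ _ _
      _ ≤ _ := by
          gcongr
          exact Finset.single_le_sum (f := fun l => a l ^ k) (fun l _ => pow_nonneg (ha l) _)
            (Finset.mem_univ l₀)

theorem maux_pow_le {G : Germ n d B} {x : Pt B} {sg : B} {m : ℕ} (hsg : IsSep G x m sg) {L : ℕ}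
    {f : Fin L → B} (hf : ∀ l, x (f l) = 0) : ∃ (k : ℕ) (C : ℝ), 1 ≤ k ∧ 0 < C ∧
      ∀ χ ∈ UU G sg 1, (∑ l, ‖χ (f l)‖ ^ 2) ^ k ≤ C * nq (proj G.y χ) := by
  choose k₀ hk₀ using fun l => maux_nil hsg (hf l)
  have hle : ∀ l, k₀ l ≤ 1 + ∑ l, k₀ l := fun l =>
    (Finset.single_le_sum (f := k₀) (fun _ _ => Nat.zero_le _) (Finset.mem_univ l)).trans
      (Nat.le_add_left _ _)
  choose C h0 hC using fun l => hk₀ l _ (hle l)
  refine ⟨1 + ∑ l, k₀ l, (L : ℝ) ^ (1 + ∑ l, k₀ l) * (∑ l, C l) + 1, by omega, ?_,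
    fun χ hχ => ?_⟩
  · have := Finset.sum_nonneg fun l (_ : l ∈ Finset.univ) => h0 l
    positivity
  have hn := nq_nonneg (proj G.y χ)
  calc (∑ l, ‖χ (f l)‖ ^ 2) ^ (1 + ∑ l, k₀ l)
      ≤ (L : ℝ) ^ (1 + ∑ l, k₀ l) * ∑ l, (‖χ (f l)‖ ^ 2) ^ (1 + ∑ l, k₀ l) :=
        maux_sum_pow _ (fun l => by positivity) (by omega)
    _ ≤ (L : ℝ) ^ (1 + ∑ l, k₀ l) * ∑ l, C l * nq (proj G.y χ) := by
        gcongr with l
        exact hC l χ hχ
    _ = ((L : ℝ) ^ (1 + ∑ l, k₀ l) * ∑ l, C l) * nq (proj G.y χ) := by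
        rw [← Finset.sum_mul, mul_assoc]
    _ ≤ _ := by nlinarith

theorem maux_low {G : Germ n d B} {N L : ℕ} (hN : 1 ≤ N) {f : Fin L → B}
    (hmono : ∀ m : Fin n → ℕ, ∑ j, m j = N → ∃ l, f l = ∏ j, G.y j ^ m j) (χ : Pt B) :
    nq (proj G.y χ) ^ N ≤ (n : ℝ) ^ N * ∑ l, ‖χ (f l)‖ ^ 2 := by
  rcases Nat.eq_zero_or_pos n with rfl | hn
  · have : nq (proj G.y χ) = 0 := by simp [nq]
    rw [this, zero_pow (by omega)]
    positivity
  · obtain ⟨j, -, h⟩ := Finset.exists_max_image (Finset.univ : Finset (Fin n))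
      (fun j => ‖proj G.y χ j‖ ^ 2) ⟨⟨0, hn⟩, Finset.mem_univ _⟩
    have h1 : nq (proj G.y χ) ≤ n * ‖proj G.y χ j‖ ^ 2 := by
      have := Finset.sum_le_card_nsmul Finset.univ (fun j => ‖proj G.y χ j‖ ^ 2)
        (‖proj G.y χ j‖ ^ 2) (fun l hl => h l hl)
      simpa [nsmul_eq_mul, nq] using this
    obtain ⟨l, hl⟩ := hmono (fun i => if i = j then N else 0) (by simp)
    have h2 : χ (f l) = proj G.y χ j ^ N := by
      rw [hl, map_prod]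
      simp [proj, apply_ite]
    calc nq (proj G.y χ) ^ N ≤ (n * ‖proj G.y χ j‖ ^ 2) ^ N := by
          have := nq_nonneg (proj G.y χ)
          gcongr
      _ = (n : ℝ) ^ N * ‖χ (f l)‖ ^ 2 := by
          rw [mul_pow, h2, norm_pow, ← pow_mul, ← pow_mul, mul_comm 2 N]
      _ ≤ _ := by
          gcongr
          exact Finset.single_le_sum (f := fun l => ‖χ (f l)‖ ^ 2) (fun l _ => by positivity)
            (Finset.mem_univ l)

theorem maux_real {S T SF η r A δ c C₁ C₂ β Z H : ℝ} {N k : ℕ} (hN : 1 ≤ N) (hS : 0 < S)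
    (hr : 0 < r) (hT : r ^ 2 ≤ T) (hη : 0 < η) (hA : 0 ≤ A) (hδ : 0 ≤ δ) (hC₁ : 0 < C₁)
    (hC₂ : 0 ≤ C₂) (hk : S ^ k ≤ C₁ * T) (hZ : 0 ≤ Z) (hZ2 : Z ^ (N : ℝ) ≤ C₂ * S ^ β)
    (hSF : S / 4 ≤ SF) (hH : 0 ≤ H) (hc : -c = β / N - A - k * δ) :
    Z * ((SF + η) ^ (-A) * (T + r ^ 2) ^ (-δ) * H) ≤
      (C₂ ^ ((1 : ℝ) / N) * 4 ^ A * C₁ ^ δ) * (S ^ (-c) * H) := by
  have hN0 : (0:ℝ) < N := by exact_mod_cast hN
  have hT0 : 0 < T := (by positivity : 0 < r ^ 2).trans_le hT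
  have h1 : (SF + η) ^ (-A) ≤ 4 ^ A * S ^ (-A) := by
    calc (SF + η) ^ (-A) ≤ (S / 4) ^ (-A) :=
          Real.rpow_le_rpow_of_nonpos (by positivity) (by linarith) (by linarith)
      _ = 4 ^ A * S ^ (-A) := by
          rw [Real.div_rpow hS.le (by norm_num), Real.rpow_neg (by norm_num : (0:ℝ) ≤ 4), div_inv_eq_mul,
            mul_comm]
  have h2 : (T + r ^ 2) ^ (-δ) ≤ C₁ ^ δ * S ^ (-(k * δ)) := by
    calc (T + r ^ 2) ^ (-δ) ≤ (S ^ k / C₁) ^ (-δ) := by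
          refine Real.rpow_le_rpow_of_nonpos (by positivity) ?_ (by linarith)
          rw [div_le_iff₀ hC₁]
          nlinarith [sq_nonneg r]
      _ = C₁ ^ δ * S ^ (-(k * δ)) := by
          rw [Real.div_rpow (by positivity) hC₁.le, Real.rpow_neg hC₁.le, div_inv_eq_mul, mul_comm,
            ← Real.rpow_natCast, ← Real.rpow_mul hS.le]
          congr 2
          ring
  have h3 : Z ≤ C₂ ^ ((1 : ℝ) / N) * S ^ (β / N) := by
    have h4 : (Z ^ (N : ℝ)) ^ ((1 : ℝ) / N) ≤ (C₂ * S ^ β) ^ ((1 : ℝ) / N) :=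
      Real.rpow_le_rpow (by positivity) hZ2 (by positivity)
    rw [← Real.rpow_mul hZ, mul_one_div_cancel hN0.ne', Real.rpow_one,
      Real.mul_rpow hC₂ (by positivity), ← Real.rpow_mul hS.le] at h4
    rwa [mul_one_div] at h4
  calc Z * ((SF + η) ^ (-A) * (T + r ^ 2) ^ (-δ) * H)
      ≤ (C₂ ^ ((1 : ℝ) / N) * S ^ (β / N)) * ((4 ^ A * S ^ (-A)) * (C₁ ^ δ * S ^ (-(k * δ))) * H) := by
        have h5 : 0 ≤ (SF + η) ^ (-A) := Real.rpow_nonneg (by linarith) _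
        gcongr
    _ = (C₂ ^ ((1 : ℝ) / N) * 4 ^ A * C₁ ^ δ) * ((S ^ (β / N) * S ^ (-A) * S ^ (-(k * δ))) * H) := by
        ring
    _ = _ := by
        rw [← Real.rpow_add hS, ← Real.rpow_add hS]
        congr 3
        rw [hc]
        ring

/-- the estimate on the shell -/
theorem maux_shell {G : Germ n d B} {x : Pt B} {sg : B} {m : ℕ} (hsg : IsSep G x m sg)
    {N L : ℕ} (hn : 1 ≤ n) (hN : 1 ≤ N) {f : Fin L → B} (hf : ∀ l, x (f l) = 0)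
    (hmono : ∀ m : Fin n → ℕ, ∑ j, m j = N → ∃ l, f l = ∏ j, G.y j ^ m j) {A c β : ℝ}
    (hA : 0 ≤ A) (hc : A - β / N < c) {z : B}
    (hz : ∃ C ρ : ℝ, 0 < ρ ∧ ∀ χ ∈ UU G sg ρ,
      (‖χ z‖ ^ 2) ^ (N : ℝ) ≤ C * (∑ l, ‖χ (f l)‖ ^ 2) ^ β) :
    ∃ δ ρ K : ℝ, 0 < δ ∧ 0 < ρ ∧ 0 ≤ K ∧ ∀ (h : B) (s : ℝ), ∀ χ ∈ UU G sg ρ, ∀ r : ℝ, 0 < r →
      r ^ 2 ≤ nq (proj G.y χ) → ∀ (F : Fin L → B) (η : ℝ), 0 < η →
      (∑ l, ‖χ (f l)‖ ^ 2) / 4 ≤ ∑ l, ‖χ (F l)‖ ^ 2 →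
      ‖χ z‖ ^ 2 * wt G F h η A r δ s χ ≤
        K * ((∑ l, ‖χ (f l)‖ ^ 2) ^ (-c) * ‖χ h‖ ^ (-(2 * s))) := by
  obtain ⟨k, C₁, hk, hC₁, hC₁'⟩ := maux_pow_le hsg hf
  obtain ⟨C₂, ρ, hρ, hC₂⟩ := hz
  have hk0 : (0:ℝ) < k := by exact_mod_cast hk
  refine ⟨(c - A + β / N) / k, min ρ 1, (max C₂ 0) ^ ((1 : ℝ) / N) * 4 ^ A *
    C₁ ^ ((c - A + β / N) / k), div_pos (by linarith) hk0, lt_min hρ one_pos, by positivity,
    fun h s χ hχ r hr hT F η hη hF => ?_⟩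
  have hpos : 0 < min ρ 1 := lt_min hρ one_pos
  have hχ1 : χ ∈ UU G sg 1 := ⟨hχ.1.trans_le (by gcongr; exact min_le_right _ _), hχ.2⟩
  have hχρ : χ ∈ UU G sg ρ := ⟨hχ.1.trans_le (by gcongr; exact min_le_left _ _), hχ.2⟩
  have hS : 0 < ∑ l, ‖χ (f l)‖ ^ 2 := by
    have h1 := maux_low hN hmono χ
    have h2 : 0 < nq (proj G.y χ) ^ N := pow_pos ((by positivity : 0 < r ^ 2).trans_le hT) _
    have h3 : (0:ℝ) < (n : ℝ) ^ N := by
      have : (0:ℝ) < n := by exact_mod_cast hn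
      positivity
    by_contra! hcon
    nlinarith
  have := maux_real (H := ‖χ h‖ ^ (-(2 * s))) (δ := (c - A + β / N) / k) (c := c) (A := A)
    (C₂ := max C₂ 0) (β := β) hN hS hr hT hη hA
    (div_pos (by linarith) hk0).le hC₁ (le_max_right _ _) (hC₁' χ hχ1) (by positivity)
    ((hC₂ χ hχρ).trans (by gcongr; exact le_max_left _ _)) hF (by positivity) (by
      field_simp
      ring)
  exact this

end Pool.Agent.Odp2
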