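import Pool.Agent.Odp2.Main.MAux2
import Pool.Agent.Odp2.Alg.Sep

/-!
# Auxiliary lemmas for Theorem M: limits, integrals, the estimate for a fixed index
-/

open scoped ContDiff Topology ENNReal NNReal WithZero
open Set MeasureTheory Filter MvPolynomial Pool.Agent.ODP Pool.Agent.ToricKRF
  Pool.Agent.ToricKRF.G Pool.Agent.KRFS Pool.Agent.KRFQ

namespace Pool.Agent.Odp2

variable {n d : ℕ} {B : Type} [CommRing B] [Algebra ℂ B]

/-- the coefficient vectors of the elements of an ideal form a closed set -/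
theorem maux_closed (G : Germ n d B) (J : Ideal B) (v : Fin d → ℂ)
    (h : ∀ ε : ℝ, 0 < ε → ∃ v' : Fin d → ℂ, (∑ k, algebraMap ℂ B (v' k) * G.e k ∈ J) ∧
      ∀ k, ‖v' k - v k‖ ≤ ε) :
    ∑ k, algebraMap ℂ B (v k) * G.e k ∈ J := by
  let φ : (Fin d → ℂ) →ₗ[ℂ] B := Fintype.linearCombination ℂ G.e
  let W : Submodule ℂ (Fin d → ℂ) := (J.restrictScalars ℂ).comap φ
  have hW : IsClosed (W : Set (Fin d → ℂ)) := W.closed_of_finiteDimensional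
  have hmem : ∀ u : Fin d → ℂ, u ∈ W ↔ ∑ k, algebraMap ℂ B (u k) * G.e k ∈ J := by
    intro u
    change φ u ∈ J ↔ _
    simp [φ, Fintype.linearCombination_apply, Algebra.smul_def]
  rw [← hmem]
  have hcl : v ∈ closure (W : Set (Fin d → ℂ)) := by
    rw [Metric.mem_closure_iff]
    intro ε hε
    obtain ⟨v', h1, h2⟩ := h (ε / 2) (by positivity)
    refine ⟨v', (hmem v').2 h1, ?_⟩
    rw [dist_pi_lt_iff hε]
    intro k
    rw [dist_comm, dist_eq_norm]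
    exact (h2 k).trans_lt (by linarith)
  rwa [hW.closure_eq] at hcl

theorem maux_final [IsDomain B] {G : Germ n d B} {x : Pt B} {sg : B} {m : ℕ} (hm : 1 ≤ m)
    (hsg : IsSep G x m sg) (p : Pts G x) {a : Fin n → ℕ} (ha : ∀ j, 1 ≤ a j) {z : B}
    (hz : ∑ k, algebraMap ℂ B (eval 0 (G.cf (z * sg) k)) * G.e k ∈ JI p a 1) :
    z ∈ JI p (one n) 1 := by
  have hle : JI p a 1 ≤ JI p (one n) 1 := by
    intro b hb
    rw [mem_JI] at hb ⊢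
    obtain ⟨F, hF, hF'⟩ := hb
    refine ⟨F, hF.mono fun ν hν i => ?_, hF'⟩
    have hD : eval (proj G.y (p.p i ν)) G.D ≠ 0 := by rw [p.proj_p]; exact p.D_ne ν
    rw [vanAt_one (one n) (fun _ => le_rfl) hD]
    exact (vanAt_one a ha hD _).1 (hν i)
  have hy : Ideal.span (range G.y) ≤ JI p (one n) 1 := by
    rw [Ideal.span_le]
    rintro _ ⟨j, rfl⟩
    have h0 := mono_mem_JI p (one n) (N := 1) (m := fun i => if i = j then 1 else 0)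
      (by simp [one])
    have h1 : ∏ i, G.y i ^ (if i = j then 1 else 0) = G.y j := by
      simp
    rw [h1] at h0
    exact h0
  have h1 : z * sg ∈ JI p (one n) 1 := by
    have h2 : z * sg = ∑ k, algebraMap ℂ B (eval 0 (G.cf (z * sg) k)) * G.e k +
        ∑ k, (aeval G.y (G.cf (z * sg) k) - algebraMap ℂ B (eval 0 (G.cf (z * sg) k))) *
          G.e k := by
      conv_lhs => rw [G.cf_spec (z * sg)]
      rw [← Finset.sum_add_distrib]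
      refine Finset.sum_congr rfl fun k _ => ?_
      ring
    rw [h2]
    refine Ideal.add_mem _ (hle hz) (Ideal.sum_mem _ fun k _ => Ideal.mul_mem_right _ _ (hy ?_))
    exact sep_aeval_sub G.y _
  have h3 : 1 - sg ∈ JI p (one n) 1 := by
    have h4 : (1 - sg) = (1 - sg) ^ (2 * 1) - (sg ^ 2 - sg) := by ring
    rw [h4]
    exact Ideal.sub_mem _ (pow_mem_JI p (fun _ => le_rfl) 1 (by simp [hsg.x_sg]))
      (hy (Ideal.pow_le_self (by omega) hsg.idem))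
  have h5 : z = z * sg + z * (1 - sg) := by ring
  rw [h5]
  exact Ideal.add_mem _ h1 (Ideal.mul_mem_left _ _ h3)

theorem maux_limit {d : ℕ} (u : ℕ → Fin d → ℂ) (R : ℝ)
    (hu : ∀ᶠ ν in (hyperfilter ℕ : Filter ℕ), ∀ k, ‖u ν k‖ ≤ R) :
    ∃ v' : Fin d → ℂ, ∀ k, Tendsto (fun ν => u ν k) (hyperfilter ℕ : Filter ℕ) (𝓝 (v' k)) := by
  have h1 : ∀ k, ∃ v', Tendsto (fun ν => u ν k) (hyperfilter ℕ : Filter ℕ) (𝓝 v') := by
    intro k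
    have hc := isCompact_closedBall (0 : ℂ) R
    obtain ⟨v', -, hv'⟩ := hc.ultrafilter_le_nhds ((hyperfilter ℕ).map (fun ν => u ν k)) (by
      rw [Filter.le_principal_iff]
      exact hu.mono fun ν h => mem_closedBall_zero_iff.2 (h k))
    exact ⟨v', hv'⟩
  choose v' hv' using h1
  exact ⟨v', hv'⟩

/-- the lower bound for the weight -/
theorem maux_wt_low (G : Germ n d B) {L : ℕ} (f : Fin L → B) {A δ : ℝ} (hA : 0 ≤ A)
    (hδ : 0 ≤ δ) : ∃ κ : ℝ, 0 < κ ∧ ∀ (h : B) (s r η : ℝ) (F : Fin L → B) (χ : Pt B), 0 < r →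
      r ≤ 1 → 0 < η → η ≤ 1 → nq (proj G.y χ) ≤ 1 → (∀ l, ‖χ (F l) - χ (f l)‖ ≤ 1) →
      κ * ‖χ h‖ ^ (-(2 * s)) ≤ wt G F h η A r δ s χ := by
  choose C hC using fun l => G.bdd (f l) 1
  refine ⟨(∑ l, (|C l| + 1) ^ 2 + 1) ^ (-A) * 2 ^ (-δ), by positivity, ?_⟩
  intro h s r η F χ hr hr1 hη hη1 hq hF
  have h1 : ∑ l, ‖χ (F l)‖ ^ 2 ≤ ∑ l, (|C l| + 1) ^ 2 := by
    refine Finset.sum_le_sum fun l _ => ?_
    have h2 : ‖χ (F l)‖ ≤ |C l| + 1 := by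
      calc ‖χ (F l)‖ = ‖(χ (F l) - χ (f l)) + χ (f l)‖ := by rw [sub_add_cancel]
        _ ≤ ‖χ (F l) - χ (f l)‖ + ‖χ (f l)‖ := norm_add_le _ _
        _ ≤ 1 + |C l| := add_le_add (hF l) ((hC l χ hq).trans (le_abs_self _))
        _ = _ := add_comm _ _
    gcongr
  unfold wt
  have h3 : (∑ l, (|C l| + 1) ^ 2 + 1) ^ (-A) ≤ (∑ l, ‖χ (F l)‖ ^ 2 + η) ^ (-A) :=
    Real.rpow_le_rpow_of_nonpos (by positivity) (by linarith) (by linarith)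
  have h4 : (2:ℝ) ^ (-δ) ≤ (nq (proj G.y χ) + r ^ 2) ^ (-δ) := by
    have := nq_nonneg (proj G.y χ)
    refine Real.rpow_le_rpow_of_nonpos (by positivity) ?_ (by linarith)
    nlinarith
  have h5 : 0 ≤ (∑ l, ‖χ (F l)‖ ^ 2 + η) ^ (-A) := Real.rpow_nonneg (by positivity) _
  have h6 : 0 ≤ (nq (proj G.y χ) + r ^ 2) ^ (-δ) := by
    have := nq_nonneg (proj G.y χ)
    positivity
  exact mul_le_mul (mul_le_mul h3 h4 (by positivity) h5) le_rfl (by positivity)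
    (mul_nonneg h5 h6)

/-- the perturbed generators are comparable outside of a ball -/
theorem maux_close {G : Germ n d B} {N L : ℕ} (hn : 1 ≤ n) (hN : 1 ≤ N) {f : Fin L → B}
    (hmono : ∀ m : Fin n → ℕ, ∑ j, m j = N → ∃ l, f l = ∏ j, G.y j ^ m j) {r : ℝ}
    (hr : 0 < r) : ∃ ε₁ : ℝ, 0 < ε₁ ∧ ε₁ ≤ 1 ∧ ∀ (χ : Pt B) (F : Fin L → B),
      r ^ 2 ≤ nq (proj G.y χ) → (∀ l, ‖χ (F l) - χ (f l)‖ ≤ ε₁) →
      (∑ l, ‖χ (f l)‖ ^ 2) / 4 ≤ ∑ l, ‖χ (F l)‖ ^ 2 := by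
  have hn0 : (0:ℝ) < n := by exact_mod_cast hn
  have hL0 : (0:ℝ) ≤ L := Nat.cast_nonneg _
  set ε₁ : ℝ := min 1 ((r ^ 2) ^ N / ((n : ℝ) ^ N * (4 * (L + 1)))) with hε₁
  have hpos : 0 < ε₁ := lt_min one_pos (by positivity)
  have h1 : ε₁ ≤ 1 := min_le_left _ _
  refine ⟨ε₁, hpos, h1, fun χ F hq hF => ?_⟩
  have h2 : ε₁ * ((n : ℝ) ^ N * (4 * (L + 1))) ≤ (r ^ 2) ^ N := by
    rw [← le_div_iff₀ (by positivity)]
    exact min_le_right _ _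
  have h3 := maux_low hN hmono χ
  have h4 : (r ^ 2) ^ N ≤ nq (proj G.y χ) ^ N := by gcongr
  have h5 : (n : ℝ) ^ N * (ε₁ * (4 * (L + 1))) ≤ (n : ℝ) ^ N * ∑ l, ‖χ (f l)‖ ^ 2 := by
    calc (n : ℝ) ^ N * (ε₁ * (4 * (L + 1))) = ε₁ * ((n : ℝ) ^ N * (4 * (L + 1))) := by ring
      _ ≤ _ := h2.trans (h4.trans h3)
  have h6 : ε₁ * (4 * (L + 1)) ≤ ∑ l, ‖χ (f l)‖ ^ 2 := le_of_mul_le_mul_left h5 (by positivity)
  have h7 : ∑ l, ‖χ (f l)‖ ^ 2 ≤ ∑ l, (2 * ‖χ (F l)‖ ^ 2 + 2 * ε₁ ^ 2) := by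
    refine Finset.sum_le_sum fun l _ => ?_
    have h8 : ‖χ (f l)‖ ≤ ‖χ (F l)‖ + ε₁ := by
      calc ‖χ (f l)‖ = ‖χ (F l) - (χ (F l) - χ (f l))‖ := by rw [sub_sub_cancel]
        _ ≤ ‖χ (F l)‖ + ‖χ (F l) - χ (f l)‖ := norm_sub_le _ _
        _ ≤ _ := by gcongr; exact hF l
    have h9 : ‖χ (f l)‖ ^ 2 ≤ (‖χ (F l)‖ + ε₁) ^ 2 := by gcongr
    nlinarith [sq_nonneg (‖χ (F l)‖ - ε₁)]
  rw [Finset.sum_add_distrib, ← Finset.mul_sum, Finset.sum_const, Finset.card_univ,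
    Fintype.card_fin, nsmul_eq_mul] at h7
  have h10 : (L : ℝ) * (2 * ε₁ ^ 2) ≤ (ε₁ * (4 * (L + 1))) / 2 := by
    have h11 : ε₁ ^ 2 ≤ ε₁ := by nlinarith
    have h12 : (L : ℝ) * (2 * ε₁ ^ 2) ≤ L * (2 * ε₁) := by gcongr
    linarith
  linarith

/-- restriction of the base -/
theorem maux_restrict (G : Germ n d B) (S : Set (Pt B)) (t : ℝ) (F : Pt B → ℝ≥0∞) :
    sumI G {χ | χ ∈ S ∧ nq (proj G.y χ) ≤ t} F =
      ∫⁻ w : Fin n → ℂ, {w : Fin n → ℂ | nq w ≤ t}.indicator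
        (fun w => ∑' χ : {χ : Pt B // χ ∈ S ∧ proj G.y χ = w}, F χ) w := by
  classical
  refine lintegral_congr fun w => ?_
  have h1 : (∑' χ : {χ : Pt B // χ ∈ {χ | χ ∈ S ∧ nq (proj G.y χ) ≤ t} ∧ proj G.y χ = w}, F χ) =
      ∑' χ : Pt B, ({χ : Pt B | χ ∈ {χ | χ ∈ S ∧ nq (proj G.y χ) ≤ t} ∧
        proj G.y χ = w}).indicator F χ :=
    tsum_subtype {χ : Pt B | χ ∈ {χ | χ ∈ S ∧ nq (proj G.y χ) ≤ t} ∧ proj G.y χ = w} F
  have h2 : (∑' χ : {χ : Pt B // χ ∈ S ∧ proj G.y χ = w}, F χ) =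
      ∑' χ : Pt B, ({χ : Pt B | χ ∈ S ∧ proj G.y χ = w}).indicator F χ :=
    tsum_subtype {χ : Pt B | χ ∈ S ∧ proj G.y χ = w} F
  by_cases hw : nq w ≤ t
  · rw [indicator_of_mem (s := {w : Fin n → ℂ | nq w ≤ t}) hw, h1, h2]
    refine tsum_congr fun χ => ?_
    congr 1
    ext χ
    constructor
    · rintro ⟨⟨h3, -⟩, h4⟩
      exact ⟨h3, h4⟩
    · rintro ⟨h3, h4⟩
      exact ⟨⟨h3, by rw [h4]; exact hw⟩, h4⟩
  · rw [indicator_of_notMem (s := {w : Fin n → ℂ | nq w ≤ t}) hw, h1]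
    refine ENNReal.tsum_eq_zero.2 fun χ => indicator_of_notMem ?_ _
    rintro ⟨⟨-, h3⟩, h4⟩
    rw [h4] at h3
    exact hw h3

end Pool.Agent.Odp2
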